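import Pool.Agent.LLW.Both
import Pool.Agent.LLW.Vd
import Pool.Agent.LLW.Exc

set_option autoImplicit false

namespace Pool.Agent.Results.MP_0ec542_nt.LocalLaw

open Finset Filter Pool.Agent.LLW Pool.Agent.REC

/-- `TwinIndex q`: `q` is prime and `p_{q+2} + 2` is prime, where `p_k` is the `k`-th prime
(`p_1 = 2`); note that `Nat.nth Nat.Prime (k - 1)` is `p_k`. -/
def TwinIndex (q : ℕ) : Prop := q.Prime ∧ (Nat.nth Nat.Prime (q + 1) + 2).Prime

/-- the set of the `TwinIndex q` -/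
def T : Set ℕ := {q : ℕ | TwinIndex q}

/-- `Rough x r`: `r` is a prime, or it has no prime factor `≤ x` (every prime factor of `r` is
greater than `x` or equal to `r`) -/
def Rough (x : ℝ) (r : ℕ) : Prop := ∀ p : ℕ, p.Prime → p ∣ r → p = r ∨ x < p

/-- the number of `a ∈ A`, `a ≤ R`, such that `gcd (g n - a, Q) = 1` -/
noncomputable def V (g : ℕ) (A : Set ℕ) (Q R n : ℕ) : ℕ :=
  {a : ℕ | a ∈ A ∧ a ≤ R ∧ Int.gcd ((g : ℤ) * n - a) Q = 1}.ncard

/-- the number of `a ∈ A`, `a ≤ R`, such that `g n - a` is a prime `> z` -/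
noncomputable def W (g : ℕ) (A : Set ℕ) (z R n : ℕ) : ℕ :=
  {a : ℕ | a ∈ A ∧ a ≤ R ∧ ∃ p : ℕ, p.Prime ∧ z < p ∧ a + p = g * n}.ncard

/-- `V log log H / log H`, where `V` is the number of `a ∈ A`, `a ≤ R`, such that `g n - a` has no
prime factor `≤ z` (`primorial z` is the product of the primes `≤ z`) -/
noncomputable def lam (H g : ℕ) (A : Set ℕ) (z R n : ℕ) : ℝ :=
  V g A (primorial z) R n * Real.log (Real.log H) / Real.log H

/-- the `n ≡ b` modulo `Q` in `(y, y + H]` -/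
def I (y H Q b : ℕ) : Finset ℕ := (Finset.Ioc y (y + H)).filter (fun n => n ≡ b [MOD Q])

open Classical in
/-- the number of the `n ≥ 3` in `I y H Q b` such that there are no `a ∈ A`, `a ≤ R`, and `r ∈ S`
with `Rough x r` and `a + r = g n` -/
noncomputable def U (g : ℕ) (A S : Set ℕ) (x : ℝ) (y H Q R b : ℕ) : ℕ :=
  ((I y H Q b).filter (fun n => 3 ≤ n ∧
    ∀ a ∈ A, a ≤ R → ∀ r ∈ S, Rough x r → a + r ≠ g * n)).card

/-! ### the link with `Pool.Agent.LLW` -/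

theorem primorial_eq (z : ℕ) : primorial z = pmod z := by
  unfold primorial pmod
  apply prod_congr _ fun _ _ => rfl
  ext p
  rw [mem_filter, mem_range, mem_prs]
  constructor
  · rintro ⟨h1, h2⟩; exact ⟨h2, by omega⟩
  · rintro ⟨h1, h2⟩; exact ⟨by omega, h1⟩

theorem I_eq (y H z b : ℕ) : I y H (primorial z) b = Iv y H (pmod z) b := by
  unfold I Iv
  rw [primorial_eq]

open Classical in
/-- `A ∩ [0, R]` -/
noncomputable def Af (A : Set ℕ) (R : ℕ) : Finset ℕ := (range (R + 1)).filter (fun a => a ∈ A)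

theorem mem_Af {A : Set ℕ} {R a : ℕ} : a ∈ Af A R ↔ a ∈ A ∧ a ≤ R := by
  simp only [Af, mem_filter, mem_range]
  constructor
  · rintro ⟨h1, h2⟩; exact ⟨h2, by omega⟩
  · rintro ⟨h1, h2⟩; exact ⟨by omega, h1⟩

theorem V_eq (g : ℕ) (A : Set ℕ) (Q R n : ℕ) :
    V g A Q R n = (Vs g (Af A R) Q n).card := by
  unfold V
  rw [← Set.ncard_coe_finset]
  congr 1
  ext a
  rw [mem_coe, mem_Vs, mem_Af, Set.mem_ofPred_eq, and_assoc]

theorem W_eq (g : ℕ) (A : Set ℕ) (z R n : ℕ) : W g A z R n = (Ws g z (Af A R) n).card := by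
  unfold W
  rw [← Set.ncard_coe_finset]
  congr 1
  ext a
  rw [mem_coe, mem_Ws, mem_Af, Set.mem_ofPred_eq, and_assoc]

theorem lam_eq (H g : ℕ) (A : Set ℕ) (z R n : ℕ) :
    lam H g A z R n = lm H (Vs g (Af A R) (pmod z) n).card := by
  unfold lam lm
  rw [V_eq, primorial_eq]

/-- a rough number is not killed -/
theorem not_killed {g n a r H N : ℕ} {δ : ℝ} (hN : 1 / δ ≤ N) (hδ : 0 < δ)
    (hr : Rough ((H : ℝ) ^ δ) r) (h : a + r = g * n)
    (hk : ∃ q : ℕ, q.Prime ∧ q ^ N ≤ H ∧ (q : ℤ) ∣ (g : ℤ) * (n : ℤ) - (a : ℤ) ∧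
      (q : ℤ) < |(g : ℤ) * (n : ℤ) - (a : ℤ)|) : False := by
  obtain ⟨q, hq, hqN, hdvd, hlt⟩ := hk
  have he : (g : ℤ) * (n : ℤ) - a = r := by
    have h1 : ((a + r : ℕ) : ℤ) = ((g * n : ℕ) : ℤ) := by rw [h]
    push_cast at h1
    linarith
  rw [he] at hdvd hlt
  rw [abs_of_nonneg (Int.natCast_nonneg r)] at hlt
  have h4 : q ∣ r := by exact_mod_cast hdvd
  have h6 : q < r := by exact_mod_cast hlt
  rcases hr q hq h4 with h5 | h5
  · omega
  · have h1 : (1 : ℝ) ≤ q := by exact_mod_cast hq.one_lt.le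
    have h2 : ((q : ℝ)) ^ N ≤ H := by exact_mod_cast hqN
    have h3 : (q : ℝ) ≤ (H : ℝ) ^ δ := by
      calc (q : ℝ) = (q : ℝ) ^ (1 / δ * δ) := by
            rw [one_div_mul_cancel hδ.ne', Real.rpow_one]
        _ ≤ (q : ℝ) ^ ((N : ℝ) * δ) :=
            Real.rpow_le_rpow_of_exponent_le h1 (mul_le_mul_of_nonneg_right hN hδ.le)
        _ = ((q : ℝ) ^ N) ^ δ := by
            rw [Real.rpow_mul (by linarith), Real.rpow_natCast]
        _ ≤ (H : ℝ) ^ δ := Real.rpow_le_rpow (by positivity) h2 hδ.le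
    linarith

theorem rough_prime (z : ℝ) {r : ℕ} (hr : r.Prime) : Rough z r :=
  fun _ hp hd => Or.inl ((Nat.prime_dvd_prime_iff_eq hp hr).1 hd)

/-- if `gcd (g b - a, P) ≠ 1`, `n ≡ b` modulo `P`, `a + r = g n`, then a prime `ℓ ≤ z` divides `r` -/
theorem small_prime {g a b n r z : ℕ} (hn : n ≡ b [MOD pmod z]) (h : a + r = g * n)
    (hcl : Int.gcd ((g : ℤ) * b - a) (pmod z) ≠ 1) :
    ∃ ℓ : ℕ, ℓ.Prime ∧ ℓ ≤ z ∧ ℓ ∣ pmod z ∧ ℓ ∣ r := by
  obtain ⟨ℓ, hℓ, hℓd⟩ := Nat.exists_prime_and_dvd hcl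
  have hd1 : (ℓ : ℤ) ∣ (g : ℤ) * b - a :=
    (Int.natCast_dvd_natCast.2 hℓd).trans (Int.gcd_dvd_left _ _)
  have hd2 : ℓ ∣ pmod z := by
    have h1 : (ℓ : ℤ) ∣ pmod z := (Int.natCast_dvd_natCast.2 hℓd).trans (Int.gcd_dvd_right _ _)
    exact_mod_cast h1
  refine ⟨ℓ, hℓ, le_of_dvd_pmod hℓ hd2, hd2, ?_⟩
  have hd3 : (ℓ : ℤ) ∣ (n : ℤ) - b := (Nat.modEq_iff_dvd).1 (hn.of_dvd hd2).symm
  have h1 : (r : ℤ) = (g : ℤ) * ((n : ℤ) - b) + ((g : ℤ) * b - a) := by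
    have h2 : ((a + r : ℕ) : ℤ) = ((g * n : ℕ) : ℤ) := by rw [h]
    push_cast at h2
    linarith
  have h3 : (ℓ : ℤ) ∣ r := by
    rw [h1]
    exact dvd_add (hd3.mul_left _) hd1
  exact_mod_cast h3

theorem Af_mono (A : Set ℕ) {R R' : ℕ} (h : R ≤ R') : Af A R ⊆ Af A R' := by
  intro a ha
  rw [mem_Af] at ha ⊢
  exact ⟨ha.1, ha.2.trans h⟩

theorem Vs_mono {g Q n : ℕ} {A A' : Finset ℕ} (h : A ⊆ A') : Vs g A Q n ⊆ Vs g A' Q n := by
  intro a ha
  rw [mem_Vs] at ha ⊢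
  exact ⟨h ha.1, ha.2⟩

theorem lm_mono {H k k' : ℕ} (h : k ≤ k') (h2 : 0 ≤ Real.log (Real.log H)) :
    lm H k ≤ lm H k' := by
  unfold lm
  have : (k : ℝ) ≤ k' := by exact_mod_cast h
  gcongr

theorem lm_nonneg {H k : ℕ} (h2 : 0 ≤ Real.log (Real.log H)) :
    0 ≤ lm H k := by
  unfold lm
  positivity

open Classical in
/-- the number of the `n ≤ H` with a witness, from part (1) with `y = 0` for all classes -/
theorem count_upper {g z H : ℕ} {A : Finset ℕ} {C : ℝ} (hC : 1 ≤ C)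
    (h : ∀ b : ℕ, ∑ n ∈ Iv 0 H (pmod z) b, ((Ws g z A n).card : ℝ) ≤
      C * lm H (Vs g A (pmod z) b).card * (Iv 0 H (pmod z) b).card) :
    (((Icc 1 H).filter (fun n => 0 < (Ws g z A n).card)).card : ℝ) ≤
      C * ∑ n ∈ Icc 1 H, min 1 (lm H (Vs g A (pmod z) n).card) := by
  have hP : 0 < pmod z := pmod_pos z
  have hfib : ∀ F : ℕ → ℝ, ∑ n ∈ Icc 1 H, F n =
      ∑ b ∈ range (pmod z), ∑ n ∈ Iv 0 H (pmod z) b, F n := by
    intro F
    rw [← sum_fiberwise_of_maps_to (s := Icc 1 H) (t := range (pmod z)) (g := fun n => n % pmod z)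
      (fun n _ => mem_range.2 (Nat.mod_lt n hP))]
    refine sum_congr rfl fun b hb => ?_
    congr 1
    ext n
    simp only [Iv, mem_filter, mem_Icc, mem_Ioc, Nat.zero_add]
    have h1 : n ≡ b [MOD pmod z] ↔ n % pmod z = b := by
      unfold Nat.ModEq
      rw [Nat.mod_eq_of_lt (mem_range.1 hb)]
    rw [h1]
    constructor <;> rintro ⟨⟨h1, h2⟩, h3⟩ <;> exact ⟨⟨h1, h2⟩, h3⟩
  have h1 : (((Icc 1 H).filter (fun n => 0 < (Ws g z A n).card)).card : ℝ) =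
      ∑ n ∈ Icc 1 H, if 0 < (Ws g z A n).card then (1 : ℝ) else 0 := by
    rw [sum_boole]
  rw [h1, hfib, hfib, mul_sum]
  refine sum_le_sum fun b _ => ?_
  have h2 : ∑ n ∈ Iv 0 H (pmod z) b, min 1 (lm H (Vs g A (pmod z) n).card) =
      (Iv 0 H (pmod z) b).card * min 1 (lm H (Vs g A (pmod z) b).card) := by
    rw [← nsmul_eq_mul, ← sum_const]
    refine sum_congr rfl fun n hn => ?_
    rw [Vs_congr A (mem_filter.1 hn).2]
  rw [h2]
  have hI : (0 : ℝ) ≤ (Iv 0 H (pmod z) b).card := Nat.cast_nonneg _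
  rcases le_total 1 (lm H (Vs g A (pmod z) b).card) with h3 | h3
  · rw [min_eq_left h3, mul_one]
    calc ∑ n ∈ Iv 0 H (pmod z) b, (if 0 < (Ws g z A n).card then (1 : ℝ) else 0) ≤
        ∑ n ∈ Iv 0 H (pmod z) b, (1 : ℝ) := sum_le_sum fun n _ => by split_ifs <;> norm_num
      _ = (Iv 0 H (pmod z) b).card := by rw [sum_const, nsmul_eq_mul, mul_one]
      _ ≤ C * (Iv 0 H (pmod z) b).card := by nlinarith
  · rw [min_eq_right h3]
    calc ∑ n ∈ Iv 0 H (pmod z) b, (if 0 < (Ws g z A n).card then (1 : ℝ) else 0) ≤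
        ∑ n ∈ Iv 0 H (pmod z) b, ((Ws g z A n).card : ℝ) := sum_le_sum fun n _ => by
          split_ifs with h4
          · exact_mod_cast h4
          · exact Nat.cast_nonneg _
      _ ≤ C * lm H (Vs g A (pmod z) b).card * (Iv 0 H (pmod z) b).card := h b
      _ = _ := by ring

open Classical in
/-- all parts, for `g` and `A`, with the killed set in part (2) -/
theorem core (ε : ℝ) (hε : 0 < ε) (N : ℕ) : ∃ c C : ℝ, 0 < c ∧ 0 < C ∧ ∃ H0 : ℕ,
    ∀ H : ℕ, H0 ≤ H → ∀ g : ℕ, (g = 1 ∨ g = 2) → ∀ A : Set ℕ, (g = 2 → ∀ a ∈ A, Odd a) →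
    ∀ y z R b : ℕ, Real.log y ^ ε ≤ Real.log H → Real.log H ^ ε ≤ z → (z : ℝ) ≤ c * Real.log H →
    (∑ n ∈ I y H (primorial z) b, (W g A z R n : ℝ) ≤ C * lam H g A z R b * (I y H (primorial z) b).card) ∧
    (lam H g A z R b ≤ c * Real.log (Real.log H) →
      (I y H (primorial z) b).card * Real.exp (-Real.exp (C * (1 + lam H g A z R b))) ≤
        (((I y H (primorial z) b).filter (fun n : ℕ => 3 ≤ n ∧
          ∀ s ∈ Vs g (Af A (min R (2 * (y + H)))) (pmod z) b ∪ prs z,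
          ∃ q : ℕ, q.Prime ∧ q ^ N ≤ H ∧ (q : ℤ) ∣ (g : ℤ) * (n : ℤ) - (s : ℤ) ∧
          (q : ℤ) < |(g : ℤ) * (n : ℤ) - (s : ℤ)|)).card : ℝ)) ∧
    (2 * R ≤ (2 * g - 1) * H →
      c * ∑ n ∈ Icc 1 H, min 1 (lam H g A z R n) ≤
        (((Icc 1 H).filter (fun n => c * max 1 (lam H g A z R n) ≤ (W g A z R n : ℝ) ∧
          (W g A z R n : ℝ) ≤ C * max 1 (lam H g A z R n))).card : ℝ) ∧
      (((Icc 1 H).filter (fun n => 0 < W g A z R n)).card : ℝ) ≤
        C * ∑ n ∈ Icc 1 H, min 1 (lam H g A z R n)) := by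
  obtain ⟨cu, Cu, hcu, hCu, Hu, hu⟩ := upper ε hε
  obtain ⟨cv, Cv, hcv, hCv, Hv, hv⟩ := void ε hε N
  obtain ⟨cb, Cb, hcb, hCb, Hb, hb⟩ := both ε hε
  have hlog := Real.tendsto_log_atTop.comp (tendsto_natCast_atTop_atTop (R := ℝ))
  have hloglog := Real.tendsto_log_atTop.comp hlog
  obtain ⟨Hn, hn⟩ := eventually_atTop.1
    ((hlog.eventually_ge_atTop 1).and (hloglog.eventually_ge_atTop 0))
  refine ⟨min cu (min cv cb), max Cu (max Cv (max Cb 1)), by positivity, by positivity,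
    max Hu (max Hv (max Hb Hn)), ?_⟩
  intro H hH g hg A hodd y z R b hy hzε hz
  have hHu : Hu ≤ H := (le_max_left _ _).trans hH
  have hH' := (le_max_right _ _).trans hH
  have hHv : Hv ≤ H := (le_max_left _ _).trans hH'
  have hH'' := (le_max_right _ _).trans hH'
  have hHb : Hb ≤ H := (le_max_left _ _).trans hH''
  have hHn : Hn ≤ H := (le_max_right _ _).trans hH''
  obtain ⟨l1, l2⟩ := hn H hHn
  simp only [Function.comp] at l1 l2
  have l0 : 0 ≤ Real.log H := by linarith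
  obtain ⟨c, hc⟩ : ∃ c : ℝ, c = min cu (min cv cb) := ⟨_, rfl⟩
  obtain ⟨C, hC⟩ : ∃ C : ℝ, C = max Cu (max Cv (max Cb 1)) := ⟨_, rfl⟩
  rw [← hc] at hz ⊢
  rw [← hC]
  have hcu' : c ≤ cu := by rw [hc]; exact min_le_left _ _
  have hcv' : c ≤ cv := by rw [hc]; exact (min_le_right _ _).trans (min_le_left _ _)
  have hcb' : c ≤ cb := by rw [hc]; exact (min_le_right _ _).trans (min_le_right _ _)
  have hCu' : Cu ≤ C := by rw [hC]; exact le_max_left _ _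
  have hCv' : Cv ≤ C := by
    rw [hC]; exact (le_max_left _ _).trans (le_max_right _ _)
  have hCb' : Cb ≤ C := by
    rw [hC]; exact (le_max_left _ _).trans ((le_max_right _ _).trans (le_max_right _ _))
  have hC1 : 1 ≤ C := by
    rw [hC]; exact (le_max_right _ _).trans ((le_max_right _ _).trans (le_max_right _ _))
  have hlm : ∀ k : ℕ, 0 ≤ lm H k := fun k => lm_nonneg l2
  have hup : ∀ y b : ℕ, ∑ n ∈ Iv y H (pmod z) b, ((Ws g z (Af A R) n).card : ℝ) ≤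
      C * lm H (Vs g (Af A R) (pmod z) b).card * (Iv y H (pmod z) b).card := by
    intro y b
    refine (hu H hHu g y z b (Af A R) hg hzε
      (hz.trans (mul_le_mul_of_nonneg_right hcu' l0))).trans ?_
    have := hlm (Vs g (Af A R) (pmod z) b).card
    gcongr
  simp only [I_eq, W_eq, lam_eq]
  refine ⟨hup y b, ?_, ?_⟩
  · intro hlam
    have hle : lm H (Vs g (Af A (min R (2 * (y + H)))) (pmod z) b).card ≤
        lm H (Vs g (Af A R) (pmod z) b).card :=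
      lm_mono (card_le_card (Vs_mono (Af_mono A (min_le_left _ _)))) l2
    have h1 := hv H hHv g y z b (Af A (min R (2 * (y + H)))) hg hy hzε
      (hz.trans (mul_le_mul_of_nonneg_right hcv' l0))
      (fun a ha => (mem_Af.1 ha).2.trans (min_le_right _ _))
      (hle.trans (hlam.trans (mul_le_mul_of_nonneg_right hcv' l2)))
    refine le_trans ?_ h1
    apply mul_le_mul_of_nonneg_left _ (Nat.cast_nonneg _)
    apply Real.exp_le_exp.2
    apply neg_le_neg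
    apply Real.exp_le_exp.2
    have h2 := hlm (Vs g (Af A (min R (2 * (y + H)))) (pmod z) b).card
    apply mul_le_mul hCv' (by linarith) (by linarith) (by linarith)
  · intro hR
    have h1 := hb H hHb g z (Af A R) hg hzε (hz.trans (mul_le_mul_of_nonneg_right hcb' l0))
      (fun a ha => (Nat.mul_le_mul_left 2 (mem_Af.1 ha).2).trans hR)
      (fun h a ha => hodd h a (mem_Af.1 ha).1)
    refine ⟨?_, count_upper hC1 (hup 0)⟩
    have hS : 0 ≤ ∑ n ∈ Icc 1 H, min 1 (lm H (Vs g (Af A R) (pmod z) n).card) :=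
      sum_nonneg fun n _ => le_min zero_le_one (hlm _)
    refine ((mul_le_mul_of_nonneg_right hcb' hS).trans h1).trans ?_
    have h2 : ((Icc 1 H).filter (fun n =>
        cb * max 1 (lm H (Vs g (Af A R) (pmod z) n).card) ≤ ((Ws g z (Af A R) n).card : ℝ) ∧
        ((Ws g z (Af A R) n).card : ℝ) ≤ Cb * max 1 (lm H (Vs g (Af A R) (pmod z) n).card))) ⊆
      ((Icc 1 H).filter (fun n =>
        c * max 1 (lm H (Vs g (Af A R) (pmod z) n).card) ≤ ((Ws g z (Af A R) n).card : ℝ) ∧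
        ((Ws g z (Af A R) n).card : ℝ) ≤ C * max 1 (lm H (Vs g (Af A R) (pmod z) n).card))) := by
      intro n hn
      rw [mem_filter] at hn ⊢
      have hm : 0 ≤ max 1 (lm H (Vs g (Af A R) (pmod z) n).card) :=
        zero_le_one.trans (le_max_left _ _)
      exact ⟨hn.1, (mul_le_mul_of_nonneg_right hcb' hm).trans hn.2.1,
        hn.2.2.trans (mul_le_mul_of_nonneg_right hCb' hm)⟩
    exact_mod_cast card_le_card h2

theorem ev_small (c : ℝ) {δ : ℝ} (hδ : 0 < δ) : ∃ H1 : ℕ, ∀ H : ℕ, H1 ≤ H →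
    c * Real.log H ≤ (H : ℝ) ^ δ := by
  have h1 := (isLittleO_log_rpow_atTop hδ).bound (show (0 : ℝ) < 1 / (|c| + 1) by positivity)
  have h2 := (tendsto_natCast_atTop_atTop (R := ℝ)).eventually h1
  obtain ⟨H1, hH1⟩ := eventually_atTop.1 h2
  refine ⟨H1, fun H hH => ?_⟩
  have h3 := hH1 H hH
  have hl : 0 ≤ Real.log H := Real.log_natCast_nonneg H
  rw [Real.norm_of_nonneg hl, Real.norm_of_nonneg (by positivity), one_div, ← div_eq_inv_mul,
    le_div_iff₀ (by positivity)] at h3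
  have h4 : c ≤ |c| := le_abs_self c
  nlinarith

theorem odd_of_twinIndex {q : ℕ} (h : TwinIndex q) : Odd q := by
  rcases h.1.eq_two_or_odd' with rfl | h1
  · exfalso
    have h3 : Nat.nth Nat.Prime 3 = 7 := by
      have h : Nat.count Nat.Prime 7 = 3 := by decide
      have h2 := Nat.nth_count (p := Nat.Prime) (n := 7) (by norm_num)
      rwa [h] at h2
    have h2 := h.2
    rw [h3] at h2
    norm_num at h2
  · exact h1

/-- part (2) of `core` gives `U`, for `T` -/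
theorem U_T {H N y z R b : ℕ} {δ : ℝ} (hN : 1 / δ ≤ N) (hδ : 0 < δ) (hzH : (z : ℝ) ≤ (H : ℝ) ^ δ)
    {X : Finset ℕ} (hX : ∀ n ∈ X, n ∈ I y H (primorial z) b ∧ 3 ≤ n ∧
      ∀ s ∈ Vs 2 (Af T (min R (2 * (y + H)))) (pmod z) b ∪ prs z,
          ∃ q : ℕ, q.Prime ∧ q ^ N ≤ H ∧ (q : ℤ) ∣ ((2 : ℕ) : ℤ) * (n : ℤ) - (s : ℤ) ∧
          (q : ℤ) < |((2 : ℕ) : ℤ) * (n : ℤ) - (s : ℤ)|) :
    (X.card : ℝ) ≤ U 2 T Set.univ ((H : ℝ) ^ δ) y H (primorial z) R b := by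
  classical
  have hsub : X ⊆ ((I y H (primorial z) b).filter (fun n => 3 ≤ n ∧
    ∀ a ∈ T, a ≤ R → ∀ r ∈ (Set.univ : Set ℕ), Rough ((H : ℝ) ^ δ) r → a + r ≠ 2 * n)) := by
    intro n hn
    obtain ⟨hnI, hn3, hnk⟩ := hX n hn
    rw [mem_filter]
    refine ⟨hnI, hn3, fun q hqT hqR r _ hr hqr => ?_⟩
    have hny : n ≤ y + H := (mem_Ioc.1 (mem_filter.1 hnI).1).2
    have hnb : n ≡ b [MOD pmod z] := by
      rw [← primorial_eq]
      exact (mem_filter.1 hnI).2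
    have hqA : q ∈ Af T (min R (2 * (y + H))) := mem_Af.2 ⟨hqT, le_min hqR (by omega)⟩
    by_cases hcl : Int.gcd (((2 : ℕ) : ℤ) * b - q) (pmod z) = 1
    · exact not_killed hN hδ hr hqr (hnk q (mem_union_left _ (mem_Vs.2 ⟨hqA, hcl⟩)))
    · obtain ⟨ℓ, hℓ, hℓz, _, hℓr⟩ := small_prime hnb hqr hcl
      rcases hr ℓ hℓ hℓr with h4 | h4
      · have h5 := hnk ℓ (mem_union_right _ (mem_prs.2 ⟨hℓ, hℓz⟩))
        exact not_killed hN hδ (rough_prime _ hqT.1) (by omega : ℓ + q = 2 * n) h5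
      · have h5 : (ℓ : ℝ) ≤ z := by exact_mod_cast hℓz
        linarith
  unfold U
  exact_mod_cast card_le_card hsub

/-- part (2) of `core` gives `U`, for `A` -/
theorem U_A {A : Set ℕ} {H N y z R b : ℕ} {δ : ℝ} (hN : 1 / δ ≤ N) (hδ : 0 < δ)
    {X : Finset ℕ} (hX : ∀ n ∈ X, n ∈ I y H (primorial z) b ∧ 3 ≤ n ∧
      ∀ s ∈ Vs 1 (Af A (min R (2 * (y + H)))) (pmod z) b ∪ prs z,
          ∃ q : ℕ, q.Prime ∧ q ^ N ≤ H ∧ (q : ℤ) ∣ ((1 : ℕ) : ℤ) * (n : ℤ) - (s : ℤ) ∧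
          (q : ℤ) < |((1 : ℕ) : ℤ) * (n : ℤ) - (s : ℤ)|) :
    (X.card : ℝ) ≤ U 1 A {r | r.Coprime (primorial z)} ((H : ℝ) ^ δ) y H (primorial z) R b := by
  classical
  have hsub : X ⊆ ((I y H (primorial z) b).filter (fun n => 3 ≤ n ∧
    ∀ a ∈ A, a ≤ R → ∀ r ∈ {r : ℕ | r.Coprime (primorial z)}, Rough ((H : ℝ) ^ δ) r →
      a + r ≠ 1 * n)) := by
    intro n hn
    obtain ⟨hnI, hn3, hnk⟩ := hX n hn
    rw [mem_filter]
    refine ⟨hnI, hn3, fun a ha haR r hrz hr har => ?_⟩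
    have hny : n ≤ y + H := (mem_Ioc.1 (mem_filter.1 hnI).1).2
    have hnb : n ≡ b [MOD pmod z] := by
      rw [← primorial_eq]
      exact (mem_filter.1 hnI).2
    have haA : a ∈ Af A (min R (2 * (y + H))) := mem_Af.2 ⟨ha, le_min haR (by omega)⟩
    by_cases hcl : Int.gcd (((1 : ℕ) : ℤ) * b - a) (pmod z) = 1
    · exact not_killed hN hδ hr har (hnk a (mem_union_left _ (mem_Vs.2 ⟨haA, hcl⟩)))
    · obtain ⟨ℓ, hℓ, _, hℓd, hℓr⟩ := small_prime hnb har hcl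
      have hrz' : r.Coprime (pmod z) := by
        rw [← primorial_eq]
        exact hrz
      have h6 : ℓ ∣ 1 := by
        rw [← hrz']
        exact Nat.dvd_gcd hℓr hℓd
      exact hℓ.one_lt.ne' (Nat.dvd_one.1 h6)
  unfold U
  exact_mod_cast card_le_card hsub

theorem fib (x : ℕ) {P : ℕ} (hP : 0 < P) (F : ℕ → ℝ) : ∑ n ∈ Icc 1 x, F n =
      ∑ b ∈ range P, ∑ n ∈ I 0 x P b, F n := by
  rw [← sum_fiberwise_of_maps_to (s := Icc 1 x) (t := range P) (g := fun n => n % P)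
    (fun n _ => mem_range.2 (Nat.mod_lt n hP))]
  refine sum_congr rfl fun b hb => ?_
  congr 1
  ext n
  simp only [I, mem_filter, mem_Icc, mem_Ioc, Nat.zero_add]
  have h1 : n ≡ b [MOD P] ↔ n % P = b := by
    unfold Nat.ModEq
    rw [Nat.mod_eq_of_lt (mem_range.1 hb)]
  rw [h1]
  constructor <;> rintro ⟨⟨h1, h2⟩, h3⟩ <;> exact ⟨⟨h1, h2⟩, h3⟩

theorem I_one (x : ℕ) : I 0 x 1 0 = Icc 1 x := by
  ext n
  simp only [I, mem_filter, mem_Icc, mem_Ioc, Nat.zero_add]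
  constructor
  · rintro ⟨⟨h1, h2⟩, _⟩; exact ⟨h1, h2⟩
  · rintro ⟨h1, h2⟩; exact ⟨⟨h1, h2⟩, Nat.modEq_one⟩

/-- the corollary for almost all `n` -/
theorem conc {g : ℕ} {A : Set ℕ} {S : ℕ → Set ℕ} {z R : ℕ → ℕ} {c C δ : ℝ} (hc : 0 < c)
    (hC : 0 < C)
    (h : ∀ᶠ x : ℕ in atTop, ∀ b : ℕ, lam x g A (z x) (R x) b ≤ c * Real.log (Real.log x) →
      (I 0 x (primorial (z x)) b).card *
          Real.exp (-Real.exp (C * (1 + lam x g A (z x) (R x) b))) ≤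
        U g A (S x) ((x : ℝ) ^ δ) 0 x (primorial (z x)) (R x) b)
    (hU : Tendsto (fun x : ℕ => (U g A (S x) ((x : ℝ) ^ δ) 0 x 1 (R x) 0 : ℝ) / x) atTop (nhds 0))
    (K : ℝ) :
    Tendsto (fun x : ℕ =>
      (((Icc 1 x).filter (fun n => lam x g A (z x) (R x) n ≤ K)).card : ℝ) / x) atTop (nhds 0) := by
  classical
  have hlog := Real.tendsto_log_atTop.comp (tendsto_natCast_atTop_atTop (R := ℝ))
  have hloglog := Real.tendsto_log_atTop.comp hlog
  obtain ⟨e, he⟩ : ∃ e : ℝ, e = Real.exp (-Real.exp (C * (1 + K))) := ⟨_, rfl⟩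
  have he0 : 0 < e := by rw [he]; exact Real.exp_pos _
  have hU' : Tendsto (fun x : ℕ => 1 / e *
      ((U g A (S x) ((x : ℝ) ^ δ) 0 x 1 (R x) 0 : ℝ) / x)) atTop (nhds 0) := by
    have := hU.const_mul (1 / e)
    rwa [mul_zero] at this
  refine squeeze_zero' (Eventually.of_forall fun x => by positivity) ?_ hU'
  filter_upwards [h, hloglog.eventually_ge_atTop (K / c)] with x hx hKx
  simp only [Function.comp] at hKx
  rw [div_le_iff₀ hc] at hKx
  have hP : 0 < primorial (z x) := primorial_pos _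
  have h1 : (((Icc 1 x).filter (fun n => lam x g A (z x) (R x) n ≤ K)).card : ℝ) ≤
      1 / e * U g A (S x) ((x : ℝ) ^ δ) 0 x 1 (R x) 0 := by
    have e1 : (((Icc 1 x).filter (fun n => lam x g A (z x) (R x) n ≤ K)).card : ℝ) =
        ∑ n ∈ Icc 1 x, if lam x g A (z x) (R x) n ≤ K then (1 : ℝ) else 0 := by
      rw [sum_boole]
    have e2 : (U g A (S x) ((x : ℝ) ^ δ) 0 x 1 (R x) 0 : ℝ) =
        ∑ n ∈ Icc 1 x, if (3 ≤ n ∧ ∀ a ∈ A, a ≤ R x → ∀ r ∈ S x, Rough ((x : ℝ) ^ δ) r →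
          a + r ≠ g * n) then (1 : ℝ) else 0 := by
      rw [sum_boole]
      unfold U
      rw [I_one]
    rw [e1, e2, fib x hP, fib x hP, mul_sum]
    refine sum_le_sum fun b _ => ?_
    have e3 : ∑ n ∈ I 0 x (primorial (z x)) b, (if (3 ≤ n ∧ ∀ a ∈ A, a ≤ R x → ∀ r ∈ S x,
        Rough ((x : ℝ) ^ δ) r → a + r ≠ g * n) then (1 : ℝ) else 0) =
        U g A (S x) ((x : ℝ) ^ δ) 0 x (primorial (z x)) (R x) b := by
      rw [sum_boole]
      unfold U
      rfl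
    have e4 : ∑ n ∈ I 0 x (primorial (z x)) b,
        (if lam x g A (z x) (R x) n ≤ K then (1 : ℝ) else 0) =
        (I 0 x (primorial (z x)) b).card * (if lam x g A (z x) (R x) b ≤ K then (1 : ℝ) else 0) := by
      rw [← nsmul_eq_mul, ← sum_const]
      refine sum_congr rfl fun n hn => ?_
      have e5 : lam x g A (z x) (R x) n = lam x g A (z x) (R x) b := by
        rw [lam_eq, lam_eq, Vs_congr (Af A (R x)) (by
          rw [← primorial_eq]
          exact (mem_filter.1 hn).2 : n ≡ b [MOD pmod (z x)])]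
      rw [e5]
    rw [e3, e4]
    split_ifs with h6
    · have h7 := hx b (h6.trans (by linarith))
      rw [mul_one, one_div, ← div_eq_inv_mul, le_div_iff₀ he0]
      refine le_trans (mul_le_mul_of_nonneg_left ?_ (Nat.cast_nonneg _)) h7
      rw [he]
      apply Real.exp_le_exp.2
      apply neg_le_neg
      apply Real.exp_le_exp.2
      apply mul_le_mul_of_nonneg_left _ hC.le
      linarith
    · rw [mul_zero]
      positivity
  calc (((Icc 1 x).filter (fun n => lam x g A (z x) (R x) n ≤ K)).card : ℝ) / x ≤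
      (1 / e * U g A (S x) ((x : ℝ) ^ δ) 0 x 1 (R x) 0) / x :=
        div_le_div_of_nonneg_right h1 (Nat.cast_nonneg _)
    _ = _ := by ring

/-- from ExceptionalSet, for `T` -/
theorem exc_T (δ : ℝ) (hδ : 0 < δ) (Q : ℕ) (hQ : 1 ≤ Q) (b : ℕ) (R : ℕ → ℕ)
    (h : Tendsto (fun x : ℕ => (U 2 T Set.univ ((x : ℝ) ^ δ) 0 x Q (R x) b : ℝ) / x) atTop
      (nhds 0)) :
    Tendsto (fun x : ℕ => (V 2 T Q (R x) b : ℝ) / Real.log x) atTop atTop := by
  classical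
  have h1 : ∀ x : ℕ, U 2 T Set.univ ((x : ℝ) ^ δ) 0 x Q (R x) b =
      Exc.unwitnessed Q b ((x : ℝ) ^ δ) 0 x (R x) := by
    intro x
    unfold U Exc.unwitnessed I
    rw [filter_filter]
    congr 1
    ext n
    simp only [mem_filter]
    refine and_congr_right fun _ => ?_
    constructor
    · rintro ⟨h1, h2, h3⟩
      refine ⟨h2, h1, ?_⟩
      rintro q hq ⟨hqT, r, hr, hqr⟩
      exact h3 q hqT hq r (Set.mem_univ r) hr hqr
    · rintro ⟨h1, h2, h3⟩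
      refine ⟨h2, h1, ?_⟩
      intro q hqT hq r _ hr hqr
      exact h3 q hq ⟨hqT, r, hr, hqr⟩
  have h2 : ∀ x : ℕ, V 2 T Q (R x) b = Exc.T Q b (R x) := by
    intro x
    unfold V Exc.T
    rw [← Set.ncard_coe_finset]
    congr 1
    ext q
    simp only [Set.mem_ofPred_eq, coe_filter, mem_Icc]
    constructor
    · rintro ⟨h1, h2, h3⟩
      exact ⟨⟨h1.1.one_lt.le, h2⟩, h1, h3⟩
    · rintro ⟨⟨_, h2⟩, h1, h3⟩
      exact ⟨h1, h2, h3⟩
  simp only [h1] at h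
  simp only [h2]
  exact Exc.part_four δ hδ Q hQ b R h

/-- from ExceptionalSet, for `A` -/
theorem exc_A (δ : ℝ) (hδ : 0 < δ) (Q : ℕ) (hQ : 1 ≤ Q) (A : Set ℕ) (b : ℕ) (R : ℕ → ℕ)
    (h : Tendsto (fun x : ℕ =>
      (U 1 A {r | r.Coprime Q} ((x : ℝ) ^ δ) 0 x Q (R x) b : ℝ) / x) atTop (nhds 0)) :
    Tendsto (fun x : ℕ => (V 1 A Q (R x) b : ℝ) / Real.log x) atTop atTop := by
  obtain ⟨c, C, hc, hC, h1⟩ := Exc.part_three 1 δ one_pos hδ Q hQ
  obtain ⟨Ax, hAx⟩ : ∃ Ax : ℕ → Set ℕ, Ax = fun x => {a : ℕ | a ∈ A ∧ a ≤ R x} := ⟨_, rfl⟩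
  have h2 : Tendsto (fun x : ℕ => (Exc.K (Ax x) Q b x : ℝ) / Real.log x) atTop atTop := by
    refine ES39.tend hc hC (fun x => (Exc.K (Ax x) Q b x : ℝ))
      (fun x => (Exc.notSum (Ax x) Q b ((x : ℝ) ^ δ) 0 x : ℝ)) ?_ ?_
    · filter_upwards [h1] with x hx
      have h3 := hx 0
        (by rw [Nat.cast_zero, Real.log_zero, Real.rpow_one]; exact Real.log_natCast_nonneg x)
        b (Ax x)
      rw [zero_add] at h3
      exact h3
    · have h4 : Tendsto (fun x : ℕ =>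
          (U 1 A {r | r.Coprime Q} ((x : ℝ) ^ δ) 0 x Q (R x) b : ℝ) / x + 2 / x) atTop
            (nhds 0) := by
        have h5 : Tendsto (fun x : ℕ => (2 : ℝ) / x) atTop (nhds 0) :=
          tendsto_const_div_atTop_nhds_zero_nat 2
        have h6 := h.add h5
        rwa [add_zero] at h6
      refine squeeze_zero (fun x => by positivity) (fun x => ?_) h4
      rw [← add_div]
      apply div_le_div_of_nonneg_right _ (Nat.cast_nonneg _)
      have h7 : Exc.notSum (Ax x) Q b ((x : ℝ) ^ δ) 0 x ≤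
          U 1 A {r | r.Coprime Q} ((x : ℝ) ^ δ) 0 x Q (R x) b + 2 := by
        classical
        unfold Exc.notSum U I
        rw [filter_filter]
        have h8 : (Ioc 0 (0 + x)).filter (fun n => n ≡ b [MOD Q] ∧
            ∀ a ∈ Ax x, ∀ r : ℕ, Exc.Rough ((x : ℝ) ^ δ) r → r.Coprime Q → a + r ≠ n) ⊆
            (Ioc 0 (0 + x)).filter (fun n => n ≡ b [MOD Q] ∧ 3 ≤ n ∧
              ∀ a ∈ A, a ≤ R x → ∀ r ∈ {r : ℕ | r.Coprime Q}, Rough ((x : ℝ) ^ δ) r →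
                a + r ≠ 1 * n) ∪ Icc 1 2 := by
          intro n hn
          rw [mem_filter] at hn
          rw [mem_union, mem_filter, mem_Icc]
          rcases Nat.lt_or_ge n 3 with h9 | h9
          · right
            have := (mem_Ioc.1 hn.1).1
            omega
          · left
            refine ⟨hn.1, hn.2.1, h9, ?_⟩
            intro a ha haR r hr hrr har
            exact hn.2.2 a (by rw [hAx]; exact ⟨ha, haR⟩) r hrr hr (by omega)
        refine (card_le_card h8).trans ((card_union_le _ _).trans ?_)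
        rw [Nat.card_Icc]
      exact_mod_cast h7
  refine tendsto_atTop_mono (fun x => ?_) h2
  apply div_le_div_of_nonneg_right _ (Real.log_natCast_nonneg x)
  have h3 : Exc.K (Ax x) Q b x ≤ V 1 A Q (R x) b := by
    unfold Exc.K V
    apply Set.ncard_le_ncard
    · rintro a ⟨ha1, ha2⟩
      rw [hAx] at ha1
      refine ⟨ha1.1, ha1.2, ?_⟩
      have := ha2.2.2
      simpa using this
    · apply (Set.finite_Iic (R x)).subset
      rintro a ha
      exact ha.2.1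
  exact_mod_cast h3

theorem partA (ε δ : ℝ) (hε : 0 < ε) (hδ : 0 < δ) : ∃ c C : ℝ, 0 < c ∧ 0 < C ∧ ∃ H0 : ℕ,
    ∀ H : ℕ, H0 ≤ H → ∀ y z R b : ℕ, Real.log y ^ ε ≤ Real.log H → Real.log H ^ ε ≤ z →
      (z : ℝ) ≤ c * Real.log H →
      (∑ n ∈ I y H (primorial z) b, (W 2 T z R n : ℝ) ≤
        C * lam H 2 T z R b * (I y H (primorial z) b).card) ∧
      (lam H 2 T z R b ≤ c * Real.log (Real.log H) →
        (I y H (primorial z) b).card * Real.exp (-Real.exp (C * (1 + lam H 2 T z R b))) ≤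
          U 2 T Set.univ ((H : ℝ) ^ δ) y H (primorial z) R b) ∧
      (R ≤ H →
        c * ∑ n ∈ Icc 1 H, min 1 (lam H 2 T z R n) ≤
          (((Icc 1 H).filter (fun n => c * max 1 (lam H 2 T z R n) ≤ (W 2 T z R n : ℝ) ∧
            (W 2 T z R n : ℝ) ≤ C * max 1 (lam H 2 T z R n))).card : ℝ) ∧
        (((Icc 1 H).filter (fun n => 0 < W 2 T z R n)).card : ℝ) ≤
          C * ∑ n ∈ Icc 1 H, min 1 (lam H 2 T z R n)) := by
  classical
  obtain ⟨N, hN⟩ := exists_nat_ge (1 / δ)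
  obtain ⟨c, C, hc, hC, H0, hcore⟩ := core ε hε N
  obtain ⟨H1, hH1⟩ := ev_small c hδ
  refine ⟨c, C, hc, hC, max H0 H1, ?_⟩
  intro H hH y z R b hy hzε hz
  obtain ⟨h1, h2, h3⟩ := hcore H ((le_max_left _ _).trans hH) 2 (Or.inr rfl)
    T (fun _ q hq => odd_of_twinIndex hq) y z R b hy hzε hz
  have hzH : (z : ℝ) ≤ (H : ℝ) ^ δ := hz.trans (hH1 H ((le_max_right _ _).trans hH))
  exact ⟨h1, fun hlam => (h2 hlam).trans (U_T hN hδ hzH fun n hn => mem_filter.1 hn),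
    fun hR => h3 (by omega)⟩

theorem partB (ε δ : ℝ) (hε : 0 < ε) (hδ : 0 < δ) : ∃ c C : ℝ, 0 < c ∧ 0 < C ∧ ∃ H0 : ℕ,
    ∀ H : ℕ, H0 ≤ H → ∀ (A : Set ℕ) (y z R b : ℕ), Real.log y ^ ε ≤ Real.log H →
      Real.log H ^ ε ≤ z → (z : ℝ) ≤ c * Real.log H →
      (∑ n ∈ I y H (primorial z) b, (W 1 A z R n : ℝ) ≤
        C * lam H 1 A z R b * (I y H (primorial z) b).card) ∧
      (lam H 1 A z R b ≤ c * Real.log (Real.log H) →
        (I y H (primorial z) b).card * Real.exp (-Real.exp (C * (1 + lam H 1 A z R b))) ≤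
          U 1 A {r | r.Coprime (primorial z)} ((H : ℝ) ^ δ) y H (primorial z) R b) ∧
      (2 * R ≤ H →
        c * ∑ n ∈ Icc 1 H, min 1 (lam H 1 A z R n) ≤
          (((Icc 1 H).filter (fun n => c * max 1 (lam H 1 A z R n) ≤ (W 1 A z R n : ℝ) ∧
            (W 1 A z R n : ℝ) ≤ C * max 1 (lam H 1 A z R n))).card : ℝ) ∧
        (((Icc 1 H).filter (fun n => 0 < W 1 A z R n)).card : ℝ) ≤
          C * ∑ n ∈ Icc 1 H, min 1 (lam H 1 A z R n)) := by
  classical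
  obtain ⟨N, hN⟩ := exists_nat_ge (1 / δ)
  obtain ⟨c, C, hc, hC, H0, hcore⟩ := core ε hε N
  refine ⟨c, C, hc, hC, H0, ?_⟩
  intro H hH A y z R b hy hzε hz
  obtain ⟨h1, h2, h3⟩ := hcore H hH 1 (Or.inl rfl) A (fun h => absurd h (by norm_num))
    y z R b hy hzε hz
  exact ⟨h1, fun hlam => (h2 hlam).trans (U_A hN hδ fun n hn => mem_filter.1 hn),
    fun hR => h3 (by omega)⟩

theorem log_zero_rpow {ε : ℝ} (hε : 0 < ε) (x : ℕ) :
    Real.log ((0 : ℕ) : ℝ) ^ ε ≤ Real.log x := by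
  rw [Nat.cast_zero, Real.log_zero, Real.zero_rpow hε.ne']
  exact Real.log_natCast_nonneg x

/-- (A) Goldbach numbers `2 n = q + r`, `q ∈ T`, `q ≤ R`: in a class `n ≡ b` modulo the product of
the primes `≤ z`, in an interval of length `H`: the mean value of the number `W` of the `q` with
`2 n - q` a prime `> z`; the number of the `n` without a representation; then the size of `W` for
the `n ≤ H`, and the number of the `n ≤ H` with `W > 0`.
(B) The same for `n = a + r`, `a ∈ A`, for an arbitrary set `A`.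
(C), (D): consequences for almost all `n`. -/
theorem result :
    -- (A)
    (∀ ε δ : ℝ, 0 < ε → 0 < δ → ∃ c C : ℝ, 0 < c ∧ 0 < C ∧ ∃ H0 : ℕ, ∀ H : ℕ, H0 ≤ H →
      ∀ y z R b : ℕ, Real.log y ^ ε ≤ Real.log H → Real.log H ^ ε ≤ z →
      (z : ℝ) ≤ c * Real.log H →
      (∑ n ∈ I y H (primorial z) b, (W 2 T z R n : ℝ) ≤
        C * lam H 2 T z R b * (I y H (primorial z) b).card) ∧
      (lam H 2 T z R b ≤ c * Real.log (Real.log H) →
        (I y H (primorial z) b).card * Real.exp (-Real.exp (C * (1 + lam H 2 T z R b))) ≤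
          U 2 T Set.univ ((H : ℝ) ^ δ) y H (primorial z) R b) ∧
      (R ≤ H →
        c * ∑ n ∈ Icc 1 H, min 1 (lam H 2 T z R n) ≤
          (((Icc 1 H).filter (fun n => c * max 1 (lam H 2 T z R n) ≤ (W 2 T z R n : ℝ) ∧
            (W 2 T z R n : ℝ) ≤ C * max 1 (lam H 2 T z R n))).card : ℝ) ∧
        (((Icc 1 H).filter (fun n => 0 < W 2 T z R n)).card : ℝ) ≤
          C * ∑ n ∈ Icc 1 H, min 1 (lam H 2 T z R n))) ∧
    -- (B)
    (∀ ε δ : ℝ, 0 < ε → 0 < δ → ∃ c C : ℝ, 0 < c ∧ 0 < C ∧ ∃ H0 : ℕ, ∀ H : ℕ, H0 ≤ H →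
      ∀ (A : Set ℕ) (y z R b : ℕ), Real.log y ^ ε ≤ Real.log H → Real.log H ^ ε ≤ z →
      (z : ℝ) ≤ c * Real.log H →
      (∑ n ∈ I y H (primorial z) b, (W 1 A z R n : ℝ) ≤
        C * lam H 1 A z R b * (I y H (primorial z) b).card) ∧
      (lam H 1 A z R b ≤ c * Real.log (Real.log H) →
        (I y H (primorial z) b).card * Real.exp (-Real.exp (C * (1 + lam H 1 A z R b))) ≤
          U 1 A {r | r.Coprime (primorial z)} ((H : ℝ) ^ δ) y H (primorial z) R b) ∧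
      (2 * R ≤ H →
        c * ∑ n ∈ Icc 1 H, min 1 (lam H 1 A z R n) ≤
          (((Icc 1 H).filter (fun n => c * max 1 (lam H 1 A z R n) ≤ (W 1 A z R n : ℝ) ∧
            (W 1 A z R n : ℝ) ≤ C * max 1 (lam H 1 A z R n))).card : ℝ) ∧
        (((Icc 1 H).filter (fun n => 0 < W 1 A z R n)).card : ℝ) ≤
          C * ∑ n ∈ Icc 1 H, min 1 (lam H 1 A z R n))) ∧
    -- (C)
    (∀ δ : ℝ, 0 < δ → ∀ Q : ℕ, 1 ≤ Q → ∀ (b : ℕ) (R : ℕ → ℕ),
      Tendsto (fun x : ℕ => (U 2 T Set.univ ((x : ℝ) ^ δ) 0 x Q (R x) b : ℝ) / x) atTop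
        (nhds 0) →
      Tendsto (fun x : ℕ => (V 2 T Q (R x) b : ℝ) / Real.log x) atTop atTop) ∧
    (∀ ε δ : ℝ, 0 < ε → 0 < δ → ∃ c : ℝ, 0 < c ∧ ∀ z R : ℕ → ℕ,
      (∀ᶠ x : ℕ in atTop, Real.log x ^ ε ≤ z x ∧ (z x : ℝ) ≤ c * Real.log x) →
      Tendsto (fun x : ℕ => (U 2 T Set.univ ((x : ℝ) ^ δ) 0 x 1 (R x) 0 : ℝ) / x) atTop
        (nhds 0) →
      ∀ K : ℝ, Tendsto (fun x : ℕ =>
        (((Icc 1 x).filter (fun n => lam x 2 T (z x) (R x) n ≤ K)).card : ℝ) / x) atTop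
          (nhds 0)) ∧
    -- (D)
    (∀ δ : ℝ, 0 < δ → ∀ Q : ℕ, 1 ≤ Q → ∀ (A : Set ℕ) (b : ℕ) (R : ℕ → ℕ),
      Tendsto (fun x : ℕ =>
        (U 1 A {r | r.Coprime Q} ((x : ℝ) ^ δ) 0 x Q (R x) b : ℝ) / x) atTop (nhds 0) →
      Tendsto (fun x : ℕ => (V 1 A Q (R x) b : ℝ) / Real.log x) atTop atTop) ∧
    (∀ ε δ : ℝ, 0 < ε → 0 < δ → ∃ c : ℝ, 0 < c ∧ ∀ (A : Set ℕ) (z R : ℕ → ℕ),
      (∀ᶠ x : ℕ in atTop, Real.log x ^ ε ≤ z x ∧ (z x : ℝ) ≤ c * Real.log x) →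
      Tendsto (fun x : ℕ =>
        (U 1 A {r | r.Coprime (primorial (z x))} ((x : ℝ) ^ δ) 0 x 1 (R x) 0 : ℝ) / x) atTop
          (nhds 0) →
      ∀ K : ℝ, Tendsto (fun x : ℕ =>
        (((Icc 1 x).filter (fun n => lam x 1 A (z x) (R x) n ≤ K)).card : ℝ) / x) atTop
          (nhds 0)) := by
  refine ⟨partA, partB, exc_T, ?_, exc_A, ?_⟩
  · intro ε δ hε hδ
    obtain ⟨c, C, hc, hC, H0, h⟩ := partA ε δ hε hδ
    refine ⟨c, hc, fun z R hz hU K => conc (S := fun _ => Set.univ) hc hC ?_ hU K⟩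
    filter_upwards [hz, eventually_ge_atTop H0] with x hzx hx b hlam
    exact (h x hx 0 (z x) (R x) b (log_zero_rpow hε x) hzx.1 hzx.2).2.1 hlam
  · intro ε δ hε hδ
    obtain ⟨c, C, hc, hC, H0, h⟩ := partB ε δ hε hδ
    refine ⟨c, hc, fun A z R hz hU K =>
      conc (S := fun x => {r | r.Coprime (primorial (z x))}) hc hC ?_ hU K⟩
    filter_upwards [hz, eventually_ge_atTop H0] with x hzx hx b hlam
    exact (h x hx A 0 (z x) (R x) b (log_zero_rpow hε x) hzx.1 hzx.2).2.1 hlam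

end Pool.Agent.Results.MP_0ec542_nt.LocalLaw
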