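import Pool.Agent.UIV.RankU

set_option autoImplicit false

namespace Pool.Agent.Results.MP_0ec542_nt.UniformRankin

open Finset Nat Filter

/-- `TwinIndex q`: `q` is prime and `p_{q+2} + 2` is prime, where `p_k` is the `k`-th prime
(`p_1 = 2`); note that `Nat.nth Nat.Prime (k - 1)` is `p_k`. -/
def TwinIndex (q : ℕ) : Prop := q.Prime ∧ (Nat.nth Nat.Prime (q + 1) + 2).Prime

/-- `Witness n q`: the prime `q` witnesses the assertion of Q1 at `n`, i.e. `2 n - q` and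
`p_{q+2} + 2` are both prime. -/
def Witness (n q : ℕ) : Prop := TwinIndex q ∧ ∃ r : ℕ, r.Prime ∧ q + r = 2 * n

open Classical in
/-- `T y`: the number of primes `q ≤ y` with `p_{q+2} + 2` prime -/
noncomputable def T (y : ℕ) : ℕ := ((Finset.Icc 1 y).filter TwinIndex).card

/-- iterated logarithms: `L i x = log (... (log x))`, `i` times -/
noncomputable def L (i : ℕ) (x : ℝ) : ℝ := Real.log^[i] x

open Classical in
/-- the number of `n` with `y < n ≤ y + H` and `3 ≤ n` which have no witness `q ≤ R` -/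
noncomputable def unwitnessed (y H : ℕ) (R : ℝ) : ℕ :=
  ((Finset.Ioc y (y + H)).filter (fun n => 3 ≤ n ∧ ∀ q : ℕ, (q : ℝ) ≤ R → ¬ Witness n q)).card

theorem unwitnessed_ge {y0 x R : ℕ} {a : ℝ} {S : Finset ℕ}
    (hS : ∀ q, q ∈ S ↔ (1 ≤ q ∧ q ≤ R) ∧ TwinIndex q) {F : Finset ℕ}
    (hF : ∀ n, n ∈ F ↔ (y0 < n ∧ n ≤ y0 + x) ∧ ∀ a ∈ S, a ≤ 2 * n → ¬ (2 * n - a).Prime)
    (h : a + 2 ≤ F.card) : a ≤ unwitnessed y0 x R := by
  classical
  have h1 : F.card ≤ (((Finset.Ioc y0 (y0 + x)).filter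
      (fun n => 3 ≤ n ∧ ∀ q : ℕ, (q : ℝ) ≤ (R : ℝ) → ¬ Witness n q)) ∪ {1, 2}).card := by
    refine card_le_card fun n hn => ?_
    obtain ⟨⟨h1, h2⟩, h3⟩ := (hF n).1 hn
    by_cases hn3 : 3 ≤ n
    · refine mem_union_left _ (mem_filter.2 ⟨mem_Ioc.2 ⟨h1, h2⟩, hn3, ?_⟩)
      rintro q hq ⟨hqT, r, hr, hqr⟩
      refine h3 q ((hS q).2 ⟨⟨hqT.1.one_lt.le, by exact_mod_cast hq⟩, hqT⟩) (by omega) ?_
      have : 2 * n - q = r := by omega
      rw [this]
      exact hr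
    · refine mem_union_right _ ?_
      rw [mem_insert, mem_singleton]
      omega
  have h1' := h1.trans (card_union_le _ _)
  have h2 : ({1, 2} : Finset ℕ).card = 2 := rfl
  rw [h2] at h1'
  have h4 : F.card ≤ unwitnessed y0 x R + 2 := by
    refine h1'.trans (le_of_eq ?_)
    unfold unwitnessed
    congr!
  have h3 : (F.card : ℝ) ≤ unwitnessed y0 x R + 2 := by exact_mod_cast h4
  linarith

open Helper9.GW in
theorem result (B : ℕ) (δ : ℝ) (hδ : 0 < δ) : ∃ c : ℝ, 0 < c ∧ ∃ H₀ : ℕ, ∀ H : ℕ, H₀ ≤ H →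
    ∀ y : ℕ,
    (∀ Y R : ℕ, Y ≤ R → (Y : ℝ) ≤ L 1 H * L 2 H ^ B →
      L 3 H ^ 2 / (L 2 H * L 4 H) * T Y + (T R - T Y) ≤ c * (L 1 H * L 2 H) →
      (H : ℝ) ^ (1 - δ) ≤ unwitnessed y H R) ∧
    (H : ℝ) ^ (1 - δ) ≤ unwitnessed y H (c * L 1 H * L 2 H ^ 3 * L 4 H / L 3 H ^ 2) := by
  classical
  obtain ⟨c₁, hc₁, hmain⟩ := Pool.Agent.UIV.rankinU (B + 3) hδ
  have hcast : Tendsto (fun k : ℕ => (k : ℝ)) atTop atTop := tendsto_natCast_atTop_atTop
  have t1 : Tendsto (fun k : ℕ => L 1 k) atTop atTop := Real.tendsto_log_atTop.comp hcast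
  have t2 : Tendsto (fun k : ℕ => L 2 k) atTop atTop := Real.tendsto_log_atTop.comp t1
  have t3 : Tendsto (fun k : ℕ => L 3 k) atTop atTop := Real.tendsto_log_atTop.comp t2
  have t4 : Tendsto (fun k : ℕ => L 4 k) atTop atTop := Real.tendsto_log_atTop.comp t3
  set c : ℝ := min (c₁ / 2) 1 with hc
  have hc0 : 0 < c := lt_min (by linarith) one_pos
  have hcc : c ≤ c₁ / 2 := min_le_left _ _
  have hc1 : c ≤ 1 := min_le_right _ _
  -- sets
  have key : ∀ x y0 : ℕ, (∀ (S : Finset ℕ) (Y : ℕ), (Y : ℝ) ≤ L 1 x * L 2 x ^ (B + 3) →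
      Helper9.GW.wt x * ((S.filter (fun q => q ≤ Y)).card : ℝ) +
        ((S.filter (fun q => ¬ q ≤ Y)).card : ℝ) ≤ c₁ * (L 1 x * L 2 x) →
      (x : ℝ) ^ (1 - δ) + 2 ≤ (((Finset.Ioc y0 (y0 + x)).filter
        (fun n => ∀ a ∈ S, a ≤ 2 * n → ¬ (2 * n - a).Prime)).card : ℝ)) →
      ∀ Y R : ℕ, Y ≤ R → (Y : ℝ) ≤ L 1 x * L 2 x ^ (B + 3) →
      Helper9.GW.wt x * T Y + (T R - T Y) ≤ c₁ * (L 1 x * L 2 x) →
      (x : ℝ) ^ (1 - δ) ≤ unwitnessed y0 x R := by
    intro x y0 hx Y R hYR hY hcond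
    refine unwitnessed_ge (S := (Finset.Icc 1 R).filter TwinIndex)
      (fun q => by rw [mem_filter, mem_Icc]) (fun n => by rw [mem_filter, mem_Ioc])
      (hx ((Finset.Icc 1 R).filter TwinIndex) Y hY ?_)
    have e1 : ((Finset.Icc 1 R).filter TwinIndex).filter (fun q => q ≤ Y) =
        (Finset.Icc 1 Y).filter TwinIndex := by
      ext q
      simp only [mem_filter, mem_Icc]
      constructor
      · rintro ⟨⟨⟨h1, h2⟩, h3⟩, h4⟩
        exact ⟨⟨h1, h4⟩, h3⟩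
      · rintro ⟨⟨h1, h2⟩, h3⟩
        exact ⟨⟨⟨h1, h2.trans hYR⟩, h3⟩, h2⟩
    have e2 := card_filter_add_card_filter_not (s := (Finset.Icc 1 R).filter TwinIndex)
      (fun q => q ≤ Y)
    rw [e1] at e2 ⊢
    have e3 : (T Y : ℝ) +
        ((((Finset.Icc 1 R).filter TwinIndex).filter (fun q => ¬ q ≤ Y)).card : ℝ) = T R := by
      exact_mod_cast e2
    have e4 : ((((Finset.Icc 1 R).filter TwinIndex).filter (fun q => ¬ q ≤ Y)).card : ℝ) =
        T R - T Y := by linarith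
    rw [e4]
    exact hcond
  have hε : 0 < 2 - Real.log 4 := by
    have : Real.log 4 = 2 * Real.log 2 := by
      rw [show (4 : ℝ) = 2 ^ 2 by norm_num, Real.log_pow]; norm_num
    have := Real.log_two_lt_d9
    linarith
  obtain ⟨t₀, ht₀⟩ := eventually_atTop.1 (Chebyshev.eventually_primeCounting_le hε)
  refine ⟨c, hc0, ?_⟩
  rw [← eventually_atTop (p := fun x : ℕ => ∀ y0 : ℕ,
    (∀ Y R : ℕ, Y ≤ R → (Y : ℝ) ≤ L 1 x * L 2 x ^ B →
      L 3 x ^ 2 / (L 2 x * L 4 x) * T Y + (T R - T Y) ≤ c * (L 1 x * L 2 x) →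
      (x : ℝ) ^ (1 - δ) ≤ unwitnessed y0 x R) ∧
    (x : ℝ) ^ (1 - δ) ≤ unwitnessed y0 x (c * L 1 x * L 2 x ^ 3 * L 4 x / L 3 x ^ 2))]
  have hgrow : ∀ᶠ x : ℕ in atTop, L 3 x ^ 2 ≤ c * L 2 x := by
    have h1 := isLittleO_pow_exp_pos_mul_atTop (k := 2) (b := 1) one_pos
    have h2 := h1.bound (c := c) hc0
    filter_upwards [t3.eventually h2, t2.eventually_ge_atTop 1, t3.eventually_ge_atTop 0]
      with x h3 h4 h5
    rw [Real.norm_of_nonneg (by positivity), Real.norm_of_nonneg (Real.exp_pos _).le, one_mul] at h3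
    have h6 : Real.exp (L 3 x) = L 2 x := by
      change Real.exp (Real.log (L 2 x)) = _
      rw [Real.exp_log (by linarith)]
    rwa [h6] at h3
  filter_upwards [hmain, t1.eventually_ge_atTop (max t₀ 2), t2.eventually_ge_atTop 1,
    t3.eventually_ge_atTop 1, t4.eventually_ge_atTop 1, hgrow] with x hx' g1 g2 g3 g4 g5
  intro y0
  have hx := hx' y0
  have G1 : 2 ≤ L 1 x := (le_max_right _ _).trans g1
  have G0 : t₀ ≤ L 1 x := (le_max_left _ _).trans g1
  have hwt : Helper9.GW.wt x = L 3 x ^ 2 / (L 2 x * L 4 x) := rfl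
  refine ⟨?_, ?_⟩
  · intro Y R hYR hY hcond
    refine key x y0 hx Y R hYR ?_ ?_
    · refine hY.trans ?_
      apply mul_le_mul_of_nonneg_left _ (by linarith)
      exact pow_le_pow_right₀ g2 (by omega)
    · rw [hwt]
      refine hcond.trans ?_
      apply mul_le_mul_of_nonneg_right _ (by positivity)
      linarith
  · set y : ℝ := c * L 1 x * L 2 x ^ 3 * L 4 x / L 3 x ^ 2 with hy
    have hL4 : L 4 x ≤ L 3 x := by
      have h1 : Real.log (L 3 x) ≤ L 3 x - 1 := Real.log_le_sub_one_of_pos (by linarith)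
      have h2 : L 4 x = Real.log (L 3 x) := rfl
      rw [h2]
      linarith
    have hy1 : L 1 x ≤ y := by
      rw [hy, le_div_iff₀ (by positivity)]
      have h1 : L 3 x ^ 2 ≤ c * (L 2 x ^ 3 * L 4 x) := by
        refine g5.trans ?_
        apply mul_le_mul_of_nonneg_left _ hc0.le
        have h2 : L 2 x ≤ L 2 x ^ 3 := by
          have := pow_le_pow_right₀ g2 (show 1 ≤ 3 by norm_num)
          simpa using this
        nlinarith
      calc L 1 x * L 3 x ^ 2 ≤ L 1 x * (c * (L 2 x ^ 3 * L 4 x)) :=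
            mul_le_mul_of_nonneg_left h1 (by linarith)
        _ = _ := by ring
    have hy2 : y ≤ L 1 x * L 2 x ^ 3 := by
      rw [hy, div_le_iff₀ (by positivity)]
      have h1 : c * L 4 x ≤ L 3 x ^ 2 := by nlinarith
      calc c * L 1 x * L 2 x ^ 3 * L 4 x = L 1 x * L 2 x ^ 3 * (c * L 4 x) := by ring
        _ ≤ _ := mul_le_mul_of_nonneg_left h1 (by positivity)
    have hy0 : 0 ≤ y := by linarith
    have hfl : (⌊y⌋₊ : ℝ) ≤ y := Nat.floor_le hy0
    have hpi : (Nat.primeCounting ⌊y⌋₊ : ℝ) ≤ 2 * y / Real.log y := by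
      have := ht₀ y (G0.trans hy1)
      have e : Real.log 4 + (2 - Real.log 4) = 2 := by ring
      rwa [e] at this
    have hL1 : 0 < L 1 x := by linarith
    have hlogy : L 2 x ≤ Real.log y := Real.log_le_log hL1 hy1
    have hT : (T ⌊y⌋₊ : ℝ) ≤ Nat.primeCounting ⌊y⌋₊ := by
      rw [← Nat.primesLE_card_eq_primeCounting]
      have h5 : (Finset.Icc 1 ⌊y⌋₊).filter TwinIndex ⊆ Nat.primesLE ⌊y⌋₊ := by
        intro p hp
        rw [mem_filter, mem_Icc] at hp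
        rw [Nat.mem_primesLE]
        exact ⟨hp.1.2, hp.2.1⟩
      exact_mod_cast card_le_card h5
    have hT2 : (T ⌊y⌋₊ : ℝ) ≤ 2 * y / L 2 x := by
      refine hT.trans (hpi.trans ?_)
      exact div_le_div_of_nonneg_left (by linarith) (by linarith) hlogy
    have h1 := key x y0 hx ⌊y⌋₊ ⌊y⌋₊ le_rfl (hfl.trans (hy2.trans (by
      apply mul_le_mul_of_nonneg_left _ (by linarith)
      exact pow_le_pow_right₀ g2 (by omega)))) (by
      rw [sub_self, add_zero, hwt]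
      have h2 : L 3 x ^ 2 / (L 2 x * L 4 x) * T ⌊y⌋₊ ≤
          L 3 x ^ 2 / (L 2 x * L 4 x) * (2 * y / L 2 x) :=
        mul_le_mul_of_nonneg_left hT2 (by positivity)
      refine h2.trans (le_of_eq_of_le (b := 2 * c * (L 1 x * L 2 x)) ?_ ?_)
      · have n2 : L 2 x ≠ 0 := by linarith
        have n3 : L 3 x ≠ 0 := by linarith
        have n4 : L 4 x ≠ 0 := by linarith
        rw [hy]
        field_simp
      · apply mul_le_mul_of_nonneg_right _ (by positivity)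
        linarith)
    refine h1.trans ?_
    have h3 : unwitnessed y0 x (⌊y⌋₊ : ℝ) ≤ unwitnessed y0 x y := by
      unfold unwitnessed
      refine card_le_card fun n hn => ?_
      rw [mem_filter] at hn ⊢
      refine ⟨hn.1, hn.2.1, fun q hq => hn.2.2 q ?_⟩
      have : q ≤ ⌊y⌋₊ := Nat.le_floor hq
      exact_mod_cast this
    exact_mod_cast h3

end Pool.Agent.Results.MP_0ec542_nt.UniformRankin
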