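import Pool.Agent.UIV.MainU

set_option autoImplicit false

namespace Pool.Agent.Results.MP_0ec542_nt.UniformRepelling

open Finset Filter Pool.Agent.RT Pool.Agent.UIV

/-- `TwinIndex q`: `q` is prime and `p_{q+2} + 2` is prime, where `p_k` is the `k`-th prime
(`p_1 = 2`); note that `Nat.nth Nat.Prime (k - 1)` is `p_k`. -/
def TwinIndex (q : ℕ) : Prop := q.Prime ∧ (Nat.nth Nat.Prime (q + 1) + 2).Prime

/-- `Witness r n q`: `q` is prime, `p_{q+2} + 2` is prime and `2 n - q` is a positive integer with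
at most `r` prime factors, counted with multiplicity.  For `r = 1` and `2 n - q ≠ 1` this says that
the prime `q` witnesses the assertion of Q1 at `n`. -/
def Witness (r n q : ℕ) : Prop :=
  TwinIndex q ∧ ∃ m : ℕ, m ≠ 0 ∧ m.primeFactorsList.length ≤ r ∧ q + m = 2 * n

/-- number of the classes `a ℓ mod ℓ`, `ℓ ∈ S`, which contain `q` -/
def hits (S : Finset ℕ) (a : ℕ → ℕ) (q : ℕ) : ℕ := (S.filter (fun ℓ => q ≡ a ℓ [MOD ℓ])).card

open Classical in
/-- number of primes `q ≤ R` with `p_{q+2} + 2` prime which lie in exactly `k` of the classes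
`a ℓ mod ℓ`, `ℓ ∈ S` -/
noncomputable def T (S : Finset ℕ) (a : ℕ → ℕ) (R k : ℕ) : ℕ :=
  ((Finset.Icc 1 R).filter (fun q => TwinIndex q ∧ hits S a q = k)).card

/-- `∏ ℓ / (ℓ - 1)` over `ℓ ∈ S` -/
noncomputable def ratio (S : Finset ℕ) : ℝ := ∏ ℓ ∈ S, (ℓ : ℝ) / ((ℓ : ℝ) - 1)

/-- `ρ ∑_{k < r} T_k / (log log x) ^ (1 / 2 ^ (r - 1 - k))` -/
noncomputable def cost (r : ℕ) (S : Finset ℕ) (a : ℕ → ℕ) (R : ℕ) (x : ℕ) : ℝ :=
  ratio S * ∑ k ∈ Finset.range r,
    (T S a R k : ℝ) / Real.log (Real.log x) ^ ((1 / 2 : ℝ) ^ (r - 1 - k))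

open Classical in
/-- number of `n` with `y < n ≤ y + H` and `3 ≤ n` for which no `q ≤ R` satisfies `Witness r n q` -/
noncomputable def unwitnessed (r y H R : ℕ) : ℕ :=
  ((Finset.Ioc y (y + H)).filter (fun n => 3 ≤ n ∧ ∀ q ≤ R, ¬ Witness r n q)).card

theorem totient_ratio (S : Finset ℕ) (hS : ∀ ℓ ∈ S, ℓ.Prime) :
    (((∏ ℓ ∈ S, ℓ : ℕ) : ℝ) / Nat.totient (∏ ℓ ∈ S, ℓ)) = ratio S := by
  classical
  unfold ratio
  induction S using Finset.induction_on with
  | empty => simp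
  | insert p S hp ih =>
    have hpp : p.Prime := hS p (Finset.mem_insert_self _ _)
    have ih' := ih (fun ℓ hℓ => hS ℓ (Finset.mem_insert_of_mem hℓ))
    rw [Finset.prod_insert hp, Finset.prod_insert hp]
    have hcop : Nat.Coprime p (∏ ℓ ∈ S, ℓ) := by
      refine Nat.Coprime.prod_right fun ℓ hℓ => ?_
      exact (Nat.coprime_primes hpp (hS ℓ (Finset.mem_insert_of_mem hℓ))).2
        (fun h => hp (h ▸ hℓ))
    rw [Nat.totient_mul hcop, Nat.totient_prime hpp]
    push_cast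
    rw [mul_div_mul_comm, ← ih', Nat.cast_sub hpp.one_lt.le]
    push_cast
    rfl

theorem coprime_two (S : Finset ℕ) (hS : ∀ ℓ ∈ S, ℓ.Prime ∧ ℓ ≠ 2) :
    Nat.Coprime 2 (∏ ℓ ∈ S, ℓ) := by
  refine Nat.Coprime.prod_right fun ℓ hℓ => ?_
  exact (Nat.coprime_primes Nat.prime_two (hS ℓ hℓ).1).2 (fun h => (hS ℓ hℓ).2 h.symm)

theorem two_mul_ratio (S : Finset ℕ) (hS : ∀ ℓ ∈ S, ℓ.Prime ∧ ℓ ≠ 2) :
    (((2 * ∏ ℓ ∈ S, ℓ : ℕ) : ℝ) / Nat.totient (2 * ∏ ℓ ∈ S, ℓ)) = 2 * ratio S := by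
  rw [← totient_ratio S (fun ℓ hℓ => (hS ℓ hℓ).1), Nat.totient_mul (coprime_two S hS),
    Nat.totient_two]
  push_cast
  rw [one_mul, mul_div_assoc]

theorem one_le_ratio (S : Finset ℕ) (hS : ∀ ℓ ∈ S, ℓ.Prime) : 1 ≤ ratio S := by
  unfold ratio
  refine Finset.one_le_prod fun ℓ hℓ => ?_
  have h := (hS ℓ hℓ).two_le
  have h2 : (2 : ℝ) ≤ ℓ := by exact_mod_cast h
  rw [one_le_div (by linarith)]
  linarith

/-- The residue class: an even class mod `2 ∏ ℓ` which is `a ℓ mod ℓ`. -/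
theorem exists_residue (S : Finset ℕ) (hS : ∀ ℓ ∈ S, ℓ.Prime ∧ ℓ ≠ 2) (a : ℕ → ℕ) :
    ∃ s : ℕ, s % 2 = 0 ∧ ∀ ℓ ∈ S, s ≡ a ℓ [MOD ℓ] := by
  have hcop : Set.Pairwise (↑S : Set ℕ) (Function.onFun Nat.Coprime (id : ℕ → ℕ)) := by
    intro i hi j hj hij
    exact (Nat.coprime_primes (hS i hi).1 (hS j hj).1).2 hij
  obtain ⟨k, hk⟩ := Nat.chineseRemainderOfFinset (fun ℓ => a ℓ) (id : ℕ → ℕ) S
      (fun i hi => (hS i hi).1.ne_zero) hcop
  obtain ⟨s, hs1, hs2⟩ := Nat.chineseRemainder (coprime_two S hS) 0 k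
  exact ⟨s, hs1, fun ℓ hℓ => (hs2.of_dvd (Finset.dvd_prod_of_mem _ hℓ)).trans (hk ℓ hℓ)⟩

/-- the classes `a ℓ mod ℓ` containing `q` are counted by `nu` -/
theorem hits_le_nu (S : Finset ℕ) (hS : ∀ ℓ ∈ S, ℓ.Prime ∧ ℓ ≠ 2) (a : ℕ → ℕ) (s q : ℕ)
    (hs : ∀ ℓ ∈ S, s ≡ a ℓ [MOD ℓ]) : hits S a q ≤ nu (2 * ∏ ℓ ∈ S, ℓ) s q := by
  unfold hits nu
  refine Finset.card_le_card fun ℓ hℓ => ?_
  rw [Finset.mem_filter] at hℓ ⊢
  obtain ⟨h1, h2⟩ := hℓ
  refine ⟨?_, ?_⟩
  · rw [Nat.mem_primeFactors]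
    refine ⟨(hS ℓ h1).1, (Finset.dvd_prod_of_mem _ h1).mul_left 2, ?_⟩
    have : 0 < ∏ ℓ ∈ S, ℓ := Finset.prod_pos fun ℓ hℓ => (hS ℓ hℓ).1.pos
    omega
  · exact (Nat.modEq_iff_dvd).1 (h2.trans (hs ℓ h1).symm)

theorem wcost_nonneg (r k : ℕ) {y : ℝ} (hy : 1 ≤ y) : 0 ≤ wcost r y k := by
  unfold wcost
  split_ifs
  · positivity
  · exact le_rfl

theorem wcost_le_one (r k : ℕ) {y : ℝ} (hy : 1 ≤ y) : wcost r y k ≤ 1 := by
  unfold wcost
  split_ifs
  · exact Real.rpow_le_one_of_one_le_of_nonpos hy (by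
      rw [neg_nonpos]
      positivity)
  · norm_num

/-- `wcost` is nonincreasing in the number of free primes -/
theorem wcost_anti (r : ℕ) {j k : ℕ} (hjk : j ≤ k) {y : ℝ} (hy : 1 ≤ y) :
    wcost r y k ≤ wcost r y j := by
  unfold wcost
  by_cases hk : k < r
  · rw [if_pos hk, if_pos (by omega)]
    apply Real.rpow_le_rpow_of_exponent_le hy
    rw [neg_le_neg_iff]
    exact pow_le_pow_of_le_one (by norm_num) (by norm_num) (by omega)
  · rw [if_neg hk]
    exact wcost_nonneg r j hy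

open Classical in
/-- the sum of the costs is `cost / ratio` -/
theorem sum_wcost (r : ℕ) (S : Finset ℕ) (a : ℕ → ℕ) (R x : ℕ)
    (hx : 1 ≤ Real.log (Real.log x)) :
    ratio S * ∑ q ∈ (Finset.Icc 1 R).filter (fun q => TwinIndex q),
      wcost r (Real.log (Real.log x)) (hits S a q) = cost r S a R x := by
  unfold cost
  congr 1
  set y := Real.log (Real.log x) with hy
  have h1 : ∀ q ∈ (Finset.Icc 1 R).filter (fun q => TwinIndex q),
      wcost r y (hits S a q) = ∑ k ∈ Finset.range r,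
        if hits S a q = k then 1 / y ^ ((1 / 2 : ℝ) ^ (r - 1 - k)) else 0 := by
    intro q _
    rw [Finset.sum_ite_eq]
    unfold wcost
    by_cases h : hits S a q < r
    · have h2 : r - hits S a q - 1 = r - 1 - hits S a q := by omega
      rw [if_pos h, if_pos (Finset.mem_range.2 h), Real.rpow_neg (by linarith), h2]
      exact (one_div _).symm
    · rw [if_neg h, if_neg (fun h' => h (Finset.mem_range.1 h'))]
  rw [Finset.sum_congr rfl h1, Finset.sum_comm]
  refine Finset.sum_congr rfl fun k _ => ?_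
  rw [← Finset.sum_filter, Finset.filter_filter, Finset.sum_const, nsmul_eq_mul, mul_one_div]
  rfl

/-- Combinatorial step -/
theorem no_witness {r W s R n : ℕ} (hr : 1 ≤ r) (hn : 2 * W < 2 * n) (hns : 2 * n ≡ s [MOD W])
    (h : ∀ b : ℕ, ((1 ≤ b ∧ b ≤ R) ∧ TwinIndex b ∧ nu W s b < r) ∨
      ((1 ≤ b ∧ b ≤ W) ∧ nu W s b < r) → b ≤ 2 * n →
      r < (2 * n - b).primeFactorsList.length) : ∀ q ≤ R, ¬ Witness r n q := by
  rintro q hq ⟨hT, m, hm0, hmr, hqm⟩
  have hmq : 2 * n - q = m := by omega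
  have hW : W ≠ 0 := by
    rintro rfl
    have h2 : nu 0 s q = 0 := by simp [nu]
    have h3 := h q (Or.inl ⟨⟨hT.1.one_lt.le, hq⟩, hT, by omega⟩) (by omega)
    rw [hmq] at h3
    omega
  by_cases hnu : nu W s q < r
  · have h3 := h q (Or.inl ⟨⟨hT.1.one_lt.le, hq⟩, hT, hnu⟩) (by omega)
    rw [hmq] at h3
    omega
  · push Not at hnu
    set F := W.primeFactors.filter (fun ℓ : ℕ => (ℓ : ℤ) ∣ (s : ℤ) - (q : ℤ)) with hF
    -- the primes of `F` divide `m`
    have hdvd : ∀ b c : ℕ, b + c = 2 * n → ∀ ℓ ∈ W.primeFactors,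
        (ℓ : ℤ) ∣ (s : ℤ) - (b : ℤ) → ℓ ∣ c := by
      intro b c hbc ℓ hℓ hd
      have h1 : (ℓ : ℤ) ∣ (s : ℤ) - ((2 * n : ℕ) : ℤ) :=
        (Int.natCast_dvd_natCast.2 (Nat.dvd_of_mem_primeFactors hℓ)).trans
          ((Nat.modEq_iff_dvd).1 hns)
      have h2 : (ℓ : ℤ) ∣ (c : ℤ) := by
        have h3 := dvd_sub hd h1
        have h4 : (s : ℤ) - (b : ℤ) - ((s : ℤ) - ((2 * n : ℕ) : ℤ)) = (c : ℤ) := by
          rw [← hbc]
          push_cast
          ring
        rwa [h4] at h3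
      exact_mod_cast h2
    by_cases hmW : W < m
    · have h1 : r < m.primeFactorsList.length := by
        refine omega_gt (F := F) (fun ℓ hℓ => ?_) hnu ?_
        · rw [hF, Finset.mem_filter] at hℓ
          exact ⟨Nat.prime_of_mem_primeFactors hℓ.1, hdvd q m hqm ℓ hℓ.1 hℓ.2⟩
        · refine lt_of_le_of_lt ?_ hmW
          refine Nat.le_of_dvd (Nat.pos_of_ne_zero hW) ?_
          refine (Finset.prod_dvd_prod_of_subset F W.primeFactors (fun q => q)
            (Finset.filter_subset _ _)).trans (Nat.prod_primeFactors_dvd W)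
      omega
    · have hm1 : 1 ≤ m := Nat.one_le_iff_ne_zero.2 hm0
      have hq1 : 2 * n - m = q := by omega
      by_cases hnm : nu W s m < r
      · have h3 := h m (Or.inr ⟨⟨hm1, by omega⟩, hnm⟩) (by omega)
        rw [hq1, Nat.primeFactorsList_prime hT.1] at h3
        simp only [List.length_cons, List.length_nil] at h3
        omega
      · have h4 : 0 < nu W s m := by omega
        unfold nu at h4
        obtain ⟨ℓ, hℓ⟩ := Finset.card_pos.1 h4
        rw [Finset.mem_filter] at hℓ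
        have h5 : ℓ ∣ q := hdvd m q (by omega) ℓ hℓ.1 hℓ.2
        have h6 : ℓ = q := (Nat.prime_dvd_prime_iff_eq
          (Nat.prime_of_mem_primeFactors hℓ.1) hT.1).1 h5
        have h7 : ℓ ≤ W := Nat.le_of_mem_primeFactors hℓ.1
        omega

theorem result (r : ℕ) (hr : 1 ≤ r) : ∃ c C : ℝ, 0 < c ∧ 0 < C ∧
    ∀ S : Finset ℕ, (∀ ℓ ∈ S, ℓ.Prime ∧ ℓ ≠ 2) →
    ∃ H₀ : ℕ, ∀ H : ℕ, H₀ ≤ H → ∀ (y : ℕ) (a : ℕ → ℕ) (R : ℕ),
      cost r S a R H ≤ c * Real.log H →
      (H : ℝ) * Real.exp (-(C * (cost r S a R H + Real.log H ^ (4 / 5 : ℝ)))) ≤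
        unwitnessed r y H R := by
  classical
  obtain ⟨c, C, hc, hC, hmain⟩ := mainU r hr
  refine ⟨c / 4, 4 * C, by positivity, by positivity, fun S hS => ?_⟩
  set P := ∏ ℓ ∈ S, ℓ with hP
  have hPpos : 0 < P := Finset.prod_pos fun ℓ hℓ => (hS ℓ hℓ).1.pos
  obtain ⟨x0, hx0⟩ := hmain (2 * P) (by omega)
  have hrat := one_le_ratio S (fun ℓ hℓ => (hS ℓ hℓ).1)
  -- largeness conditions
  have hlog : Tendsto (fun x : ℕ => Real.log x) atTop atTop :=
    Real.tendsto_log_atTop.comp tendsto_natCast_atTop_atTop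
  have hloglog : Tendsto (fun x : ℕ => Real.log (Real.log x)) atTop atTop :=
    Real.tendsto_log_atTop.comp hlog
  have hpow : Tendsto (fun x : ℕ => Real.log x ^ (4 / 5 : ℝ)) atTop atTop :=
    (tendsto_rpow_atTop (by norm_num)).comp hlog
  obtain ⟨x1, hx1⟩ := eventually_atTop.1
    ((hlog.eventually_ge_atTop (2 / c * (4 * (P : ℝ) * ratio S) + 3)).and
    ((hloglog.eventually_ge_atTop 1).and ((hpow.eventually_ge_atTop
      (4 * (P : ℝ) * ratio S)).and (eventually_ge_atTop (max x0 (4 * P + 6))))))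
  refine ⟨x1, fun x hx y a R hcond => ?_⟩
  obtain ⟨g1, g3, g2, g4⟩ := hx1 x hx
  have g5 : x0 ≤ x := (le_max_left _ _).trans g4
  have g6 : 4 * P + 6 ≤ x := (le_max_right _ _).trans g4
  obtain ⟨s, hs2, hs⟩ := exists_residue S hS a
  set A1 := (Finset.Icc 1 R).filter (fun b => TwinIndex b ∧ nu (2 * P) s b < r) with hA1
  set A2 := (Finset.Icc 1 (2 * P)).filter (fun b => nu (2 * P) s b < r) with hA2
  have hAnu : ∀ b ∈ A1 ∪ A2, nu (2 * P) s b < r := by
    intro b hb
    rw [Finset.mem_union, hA1, hA2, Finset.mem_filter, Finset.mem_filter] at hb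
    rcases hb with h | h
    · exact h.2.2
    · exact h.2
  have hx0r : (0 : ℝ) < x := by
    have : 0 < x := by omega
    exact_mod_cast this
  have hPr : (0 : ℝ) < P := by exact_mod_cast hPpos
  have hl3' : 3 ≤ Real.log x := by
    have : 0 ≤ 2 / c * (4 * (P : ℝ) * ratio S) := by positivity
    linarith
  have hl0 : 0 < Real.log x := by linarith
  -- the cost
  have hq := two_mul_ratio S hS
  have hsum : ∑ b ∈ A1 ∪ A2, wcost r (Real.log (Real.log x)) (nu (2 * P) s b) ≤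
      ∑ q ∈ (Finset.Icc 1 R).filter (fun q => TwinIndex q),
        wcost r (Real.log (Real.log x)) (hits S a q) + 2 * P := by
    have e1 : ∑ b ∈ A1 ∪ A2, wcost r (Real.log (Real.log x)) (nu (2 * P) s b) ≤
        ∑ b ∈ A1, wcost r (Real.log (Real.log x)) (nu (2 * P) s b) +
        ∑ b ∈ A2, wcost r (Real.log (Real.log x)) (nu (2 * P) s b) := by
      rw [← Finset.sum_union_inter]
      exact le_add_of_nonneg_right (Finset.sum_nonneg fun b _ => wcost_nonneg r _ g3)
    have e2 : ∑ b ∈ A2, wcost r (Real.log (Real.log x)) (nu (2 * P) s b) ≤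
        2 * P := by
      refine (Finset.sum_le_sum fun b _ => wcost_le_one r _ g3).trans ?_
      rw [Finset.sum_const, nsmul_eq_mul, mul_one]
      have : A2.card ≤ 2 * P := by
        refine (Finset.card_filter_le _ _).trans ?_
        rw [Nat.card_Icc]
        omega
      exact_mod_cast this
    have e3 : ∑ b ∈ A1, wcost r (Real.log (Real.log x)) (nu (2 * P) s b) ≤
        ∑ q ∈ (Finset.Icc 1 R).filter (fun q => TwinIndex q),
          wcost r (Real.log (Real.log x)) (hits S a q) := by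
      calc _ ≤ ∑ b ∈ A1, wcost r (Real.log (Real.log x)) (hits S a b) := by
            refine Finset.sum_le_sum fun b _ => ?_
            exact wcost_anti r (hits_le_nu S hS a s b hs) g3
        _ ≤ _ := by
            refine Finset.sum_le_sum_of_subset_of_nonneg ?_ fun b _ _ => wcost_nonneg r _ g3
            intro b hb
            rw [hA1, Finset.mem_filter] at hb
            exact Finset.mem_filter.2 ⟨hb.1, hb.2.1⟩
    linarith
  have hcost := sum_wcost r S a R x g3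
  have hcost0 : 0 ≤ cost r S a R x := by
    rw [← hcost]
    exact mul_nonneg (by linarith) (Finset.sum_nonneg fun q _ => wcost_nonneg r _ g3)
  set τ := (∑ b ∈ A1 ∪ A2, wcost r (Real.log (Real.log x)) (nu (2 * P) s b)) *
    (((2 * P : ℕ) : ℝ) / Nat.totient (2 * P)) with hτdef
  have hτ : τ ≤ 2 * cost r S a R x + 4 * P * ratio S := by
    rw [hτdef, hq]
    calc _ ≤ (∑ q ∈ (Finset.Icc 1 R).filter (fun q => TwinIndex q),
          wcost r (Real.log (Real.log x)) (hits S a q) + 2 * P) * (2 * ratio S) :=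
          mul_le_mul_of_nonneg_right hsum (by linarith)
      _ = 2 * (ratio S * ∑ q ∈ (Finset.Icc 1 R).filter (fun q => TwinIndex q),
          wcost r (Real.log (Real.log x)) (hits S a q)) + 4 * P * ratio S := by ring
      _ = _ := by rw [hcost]
  have hcond' : τ ≤ c * Real.log x := by
    refine hτ.trans ?_
    have e1 : 4 * (P : ℝ) * ratio S ≤ c / 2 * Real.log x := by
      have e2 : c / 2 * (2 / c * (4 * (P : ℝ) * ratio S)) = 4 * (P : ℝ) * ratio S := by
        field_simp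
      have e3 : 2 / c * (4 * (P : ℝ) * ratio S) ≤ Real.log x := by linarith
      have e4 := mul_le_mul_of_nonneg_left e3 (show 0 ≤ c / 2 by positivity)
      linarith
    linarith
  have hres := hx0 x g5 (2 * y + x) s (A1 ∪ A2) hAnu hcond'
  -- comparison of the sets
  have hinj : (((Finset.Ioc (2 * y + x) (2 * y + x + x)).filter
        (fun n => n ≡ s [MOD 2 * P] ∧ ∀ b ∈ A1 ∪ A2, b ≤ n →
          r < (n - b).primeFactorsList.length)).card : ℝ) ≤ unwitnessed r y x R := by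
    unfold unwitnessed
    have : ((Finset.Ioc (2 * y + x) (2 * y + x + x)).filter
        (fun n => n ≡ s [MOD 2 * P] ∧ ∀ b ∈ A1 ∪ A2, b ≤ n →
          r < (n - b).primeFactorsList.length)).card ≤
        ((Finset.Ioc y (y + x)).filter (fun n => 3 ≤ n ∧ ∀ q ≤ R, ¬ Witness r n q)).card := by
      have heven : ∀ n : ℕ, n ≡ s [MOD 2 * P] → n % 2 = 0 := by
        intro n hn
        have h1 : n % 2 = s % 2 := hn.of_mul_right _
        rw [h1, hs2]
      refine Finset.card_le_card_of_injOn (fun n => n / 2) ?_ ?_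
      · intro n hn
        rw [Finset.mem_coe, Finset.mem_filter, Finset.mem_Ioc] at hn
        obtain ⟨⟨h1, h2⟩, h3, h4⟩ := hn
        have h5 := heven n h3
        have h7 : 2 * (n / 2) = n := by omega
        have h8 : 3 ≤ n / 2 := by omega
        have h9 : n / 2 ≤ y + x := by omega
        have h11 : y < n / 2 := by omega
        have h10 : 2 * (2 * P) < 2 * (n / 2) := by omega
        rw [Finset.mem_coe, Finset.mem_filter, Finset.mem_Ioc]
        refine ⟨⟨h11, h9⟩, h8, no_witness (W := 2 * P) (s := s) hr h10 ?_ ?_⟩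
        · rw [h7]; exact h3
        · rw [h7]
          intro b hb
          apply h4
          rw [Finset.mem_union, hA1, hA2, Finset.mem_filter, Finset.mem_filter, Finset.mem_Icc,
            Finset.mem_Icc]
          exact hb
      · intro n hn m hm hnm
        rw [Finset.mem_coe, Finset.mem_filter, Finset.mem_Ioc] at hn hm
        have h5 := heven n hn.2.1
        have h6 := heven m hm.2.1
        simp only at hnm
        omega
    exact_mod_cast this
  refine le_trans ?_ (hres.trans hinj)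
  refine mul_le_mul_of_nonneg_left ?_ hx0r.le
  rw [Real.exp_le_exp, neg_le_neg_iff]
  -- exponent comparison
  have f5 : τ + Real.log x ^ (4 / 5 : ℝ) ≤ 4 * (cost r S a R x + Real.log x ^ (4 / 5 : ℝ)) := by
    have f3 : 0 ≤ Real.log x ^ (4 / 5 : ℝ) := by positivity
    have f4 : 4 * (P : ℝ) * ratio S ≤ Real.log x ^ (4 / 5 : ℝ) := g2
    linarith
  calc C * (τ + Real.log x ^ (4 / 5 : ℝ))
      ≤ C * (4 * (cost r S a R x + Real.log x ^ (4 / 5 : ℝ))) :=
        mul_le_mul_of_nonneg_left f5 hC.le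
    _ = _ := by ring

end Pool.Agent.Results.MP_0ec542_nt.UniformRepelling
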