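import Pool.Agent.UW.Fin1
import Pool.Agent.UW.FinG
import Pool.Agent.UW.AvF
import Pool.Agent.UW.RFin
import Pool.Agent.UW.WC

set_option autoImplicit false

namespace Pool.Agent.Results.MP_0ec542_nt.UniqueWitness

open Finset Filter Pool.Agent.UW

/-- `TwinIndex q`: `q` is prime and `p_{q+2} + 2` is prime, where `p_k` is the `k`-th prime
(`p_1 = 2`); note that `Nat.nth Nat.Prime (k - 1)` is `p_k`. -/
def TwinIndex (q : ℕ) : Prop := q.Prime ∧ (Nat.nth Nat.Prime (q + 1) + 2).Prime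

/-- `Witness n q`: the prime `q` witnesses the assertion of Q1 at `n`, i.e. `2 n - q` and
`p_{q+2} + 2` are both prime. -/
def Witness (n q : ℕ) : Prop := TwinIndex q ∧ ∃ r : ℕ, r.Prime ∧ q + r = 2 * n

/-- iterated logarithms: `L i x = log (... (log x))`, `i` times -/
noncomputable def L (i : ℕ) (x : ℝ) : ℝ := Real.log^[i] x

open Classical in
/-- `T y`: the number of primes `q ≤ y` with `p_{q+2} + 2` prime -/
noncomputable def T (y : ℕ) : ℕ := ((Icc 1 y).filter TwinIndex).card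

open Classical in
/-- `load A q₀`: the sum of `|q - q₀| / φ(|q - q₀|)` over the primes `q ∈ A`, `q ≠ q₀`, with
`p_{q+2} + 2` prime -/
noncomputable def load (A : Finset ℕ) (q₀ : ℕ) : ℝ :=
  ∑ q ∈ A.filter (fun q => TwinIndex q ∧ q ≠ q₀),
    ((max q₀ q - min q₀ q : ℕ) : ℝ) / Nat.totient (max q₀ q - min q₀ q)

open Classical in
/-- `only x A q₀`: the number of the `n` with `1 ≤ n ≤ x` for which `q₀` is a witness and no other
element of `A` is a witness -/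
noncomputable def only (x : ℕ) (A : Finset ℕ) (q₀ : ℕ) : ℕ :=
  ((Icc 1 x).filter (fun n => Witness n q₀ ∧ ∀ q ∈ A, Witness n q → q = q₀)).card

open Classical in
/-- the number of the `n` with `1 ≤ n ≤ x` which have exactly one witness `q ≤ y` -/
noncomputable def exactlyOne (x y : ℕ) : ℕ :=
  ((Icc 1 x).filter (fun n => ∃! q, q ≤ y ∧ Witness n q)).card

open Classical in
/-- the number of the `n` with `1 ≤ n ≤ x` which have at least one witness `q ≤ y` -/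
noncomputable def witnessed (x y : ℕ) : ℕ :=
  ((Icc 1 x).filter (fun n => ∃ q, q ≤ y ∧ Witness n q)).card

theorem witness_iff {n q : ℕ} : Witness n q ↔ TwinIndex q ∧ q ≤ 2 * n ∧ (2 * n - q).Prime := by
  constructor
  · rintro ⟨h1, r, hr, h2⟩
    have h3 : 2 * n - q = r := by omega
    exact ⟨h1, by omega, by rw [h3]; exact hr⟩
  · rintro ⟨h1, h2, h3⟩
    exact ⟨h1, 2 * n - q, h3, by omega⟩

theorem only_ge {x q₀ : ℕ} {A F : Finset ℕ} (h0 : TwinIndex q₀)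
    (hF : ∀ n ∈ F, (1 ≤ n ∧ n ≤ x) ∧ q₀ ≤ 2 * n ∧ (2 * n - q₀).Prime ∧
      ∀ q ∈ A, TwinIndex q → q ≠ q₀ → q ≤ 2 * n → ¬ (2 * n - q).Prime) :
    F.card ≤ only x A q₀ := by
  classical
  unfold only
  refine card_le_card fun n hn => ?_
  obtain ⟨h1, h2, h3, h4⟩ := hF n hn
  rw [mem_filter, mem_Icc]
  refine ⟨h1, witness_iff.2 ⟨h0, h2, h3⟩, fun q hq hw => ?_⟩
  by_contra hne
  obtain ⟨h5, h6, h7⟩ := witness_iff.1 hw
  exact h4 q hq h5 hne h6 h7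

theorem twin_odd {q : ℕ} (h : TwinIndex q) : Odd q := WC.TwinIndex.odd h

theorem load_eq (A : Finset ℕ) (q₀ : ℕ) [DecidablePred fun q => TwinIndex q ∧ q ≠ q₀] :
    load A q₀ = ∑ q ∈ A.filter (fun q => TwinIndex q ∧ q ≠ q₀), ff (max q₀ q - min q₀ q) := by
  unfold load ff
  congr!

theorem part1 (Λ : ℝ) (hΛ : 0 < Λ) : ∃ c : ℝ, 0 < c ∧ ∃ x₀ : ℕ, ∀ x : ℕ, x₀ ≤ x →
    ∀ (A : Finset ℕ) (q₀ : ℕ), q₀ ≤ x → TwinIndex q₀ → load A q₀ ≤ Λ * L 1 x →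
    c * (x / L 1 x) ≤ only x A q₀ := by
  classical
  obtain ⟨c, hc, x₀, h⟩ := finG Λ hΛ
  refine ⟨c, hc, x₀, fun x hx A q₀ hq₀ ht hl => ?_⟩
  rw [load_eq] at hl
  have h1 := h x hx (A.filter (fun q => TwinIndex q ∧ q ≠ q₀)) q₀ hq₀ (twin_odd ht)
    (fun hm => (mem_filter.1 hm).2.2 rfl) hl
  refine h1.trans ?_
  exact_mod_cast only_ge ht fun n hn => by
    obtain ⟨h2, h3, h4, h5⟩ := mem_filter.1 hn
    exact ⟨mem_Icc.1 h2, h3, h4, fun q hq ht' hne => h5 q (mem_filter.2 ⟨hq, ht', hne⟩)⟩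

theorem part2 (δ : ℝ) (hδ : 0 < δ) : ∃ c : ℝ, 0 < c ∧ ∃ x₀ : ℕ, ∀ x : ℕ, x₀ ≤ x →
    ∀ (A : Finset ℕ) (q₀ : ℕ), q₀ ≤ x → TwinIndex q₀ → load A q₀ ≤ c * (L 1 x * L 2 x) →
    (x : ℝ) ^ (1 - δ) ≤ only x A q₀ := by
  classical
  obtain ⟨c, hc, x₀, h⟩ := fin1 δ hδ
  refine ⟨c, hc, x₀, fun x hx A q₀ hq₀ ht hl => ?_⟩
  rw [load_eq] at hl
  have h1 := h x hx (A.filter (fun q => TwinIndex q ∧ q ≠ q₀)) q₀ hq₀ (twin_odd ht)
    (fun hm => (mem_filter.1 hm).2.2 rfl) hl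
  refine h1.trans ?_
  exact_mod_cast only_ge ht fun n hn => by
    obtain ⟨h2, h3, h4, h5⟩ := mem_filter.1 hn
    exact ⟨mem_Icc.1 h2, h3, h4, fun q hq ht' hne => h5 q (mem_filter.2 ⟨hq, ht', hne⟩)⟩

/-- the integers with exactly one witness `≤ y` -/
theorem exactlyOne_ge (x y : ℕ) {a : ℝ}
    (h : ∀ q₀ : ℕ, q₀ ≤ y → TwinIndex q₀ → a ≤ only x (Iic y) q₀) :
    T y * a ≤ exactlyOne x y := by
  classical
  have h1 : ((Icc 1 y).filter TwinIndex).sum (fun q₀ => only x (Iic y) q₀) ≤ exactlyOne x y := by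
    unfold only exactlyOne
    rw [← card_biUnion]
    · refine card_le_card fun n hn => ?_
      obtain ⟨q₀, h2, h3⟩ := mem_biUnion.1 hn
      obtain ⟨h4, h5⟩ := mem_filter.1 h2
      obtain ⟨h6, h7, h8⟩ := mem_filter.1 h3
      refine mem_filter.2 ⟨h6, q₀, ⟨(mem_Icc.1 h4).2, h7⟩, ?_⟩
      rintro q ⟨h9, h10⟩
      exact h8 q (mem_Iic.2 h9) h10
    · intro q₀ h2 q₁ h3 hne
      rw [Function.onFun, disjoint_left]
      intro n h4 h5
      obtain ⟨-, h6, -⟩ := mem_filter.1 h4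
      obtain ⟨-, -, h7⟩ := mem_filter.1 h5
      exact hne (h7 q₀ (mem_Iic.2 (mem_Icc.1 (mem_filter.1 h2).1).2) h6)
  have h2 : (T y : ℝ) * a ≤ ((((Icc 1 y).filter TwinIndex).sum (fun q₀ => only x (Iic y) q₀) : ℕ) : ℝ) := by
    push_cast
    unfold T
    rw [← nsmul_eq_mul]
    refine card_nsmul_le_sum _ _ _ fun q₀ hq₀ => ?_
    obtain ⟨h4, h5⟩ := mem_filter.1 hq₀
    exact h q₀ (mem_Icc.1 h4).2 h5
  refine h2.trans ?_
  exact_mod_cast h1

theorem load_le {C : ℝ} (hC : ∀ Y q0 : ℕ, 3 ≤ Y → q0 ≤ Y →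
    ∑ q ∈ prx Y q0, ff (max q0 q - min q0 q) ^ 2 ≤ C * (Y / Real.log Y)) {y q₀ : ℕ} (hy : 3 ≤ y)
    (hq : q₀ ≤ y) : load (Iic y) q₀ ≤ C * (y / Real.log y) := by
  classical
  refine le_trans ?_ (hC y q₀ hy hq)
  rw [load_eq]
  refine (sum_le_sum_of_subset_of_nonneg (t := prx y q₀) ?_ ?_).trans (sum_le_sum fun q h => ?_)
  · intro q h
    obtain ⟨h1, h2, h3⟩ := mem_filter.1 h
    exact mem_prx.2 ⟨h2.1, mem_Iic.1 h1, h3⟩
  · intro q _ _
    unfold ff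
    positivity
  · have h1 : 1 ≤ ff (max q₀ q - min q₀ q) := by
      refine one_le_ff ?_
      have h2 := (mem_prx.1 h).2.2
      rcases lt_or_gt_of_ne h2 with h3 | h3
      · rw [max_eq_left h3.le, min_eq_right h3.le]
        omega
      · rw [max_eq_right (le_of_lt h3), min_eq_left (le_of_lt h3)]
        omega
    nlinarith

theorem three_le {q : ℕ} (h : TwinIndex q) : 3 ≤ q := by
  have h1 := h.1.two_le
  have h2 := twin_odd h
  rcases h2 with ⟨k, hk⟩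
  omega

theorem part3 (δ : ℝ) (hδ : 0 < δ) : ∃ c : ℝ, 0 < c ∧ ∀ N : ℕ, ∃ x : ℕ, N ≤ x ∧
    ∀ y q₀ : ℕ, (y : ℝ) ≤ c * (L 1 x * L 2 x ^ 3 * L 4 x / L 3 x ^ 2) → q₀ ≤ y → TwinIndex q₀ →
    (x : ℝ) ^ (1 - δ) ≤ only x (Iic y) q₀ := by
  classical
  obtain ⟨c, hc, h⟩ := u1r δ hδ
  refine ⟨c, hc, fun N => ?_⟩
  obtain ⟨x, hx, h1⟩ := h N
  refine ⟨x, hx, fun y q₀ hy hq₀ ht => ?_⟩
  have hR : c * (L 1 x * L 2 x ^ 3 * L 4 x / L 3 x ^ 2) = c * RR x := rfl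
  rw [hR] at hy
  have hq : (q₀ : ℝ) ≤ c * RR x := by
    have h2 : (q₀ : ℝ) ≤ y := by exact_mod_cast hq₀
    exact h2.trans hy
  have h2 := h1 q₀ ht.1 (fun h3 => by
    have := three_le ht
    omega) hq
  refine h2.trans ?_
  exact_mod_cast only_ge ht fun n hn => by
    obtain ⟨h3, h4, h5, h6⟩ := mem_filter.1 hn
    refine ⟨mem_Icc.1 h3, h4, h5, fun q hq1 ht' hne => h6 q (mem_prx_floor.2 ⟨ht'.1, ?_, hne⟩)⟩
    have h7 : (q : ℝ) ≤ y := by exact_mod_cast mem_Iic.1 hq1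
    exact h7.trans hy

theorem eventually_le (Λ : ℝ) (hΛ : 0 < Λ) : ∃ x₀ : ℕ, ∀ x : ℕ, x₀ ≤ x →
    Λ * (L 1 x * L 2 x) ≤ x ∧ 1 ≤ L 1 x ∧ 1 ≤ L 2 x ∧ 0 ≤ L 3 x ∧ 0 ≤ L 4 x := by
  have hcast : Tendsto (fun k : ℕ => (k : ℝ)) atTop atTop := tendsto_natCast_atTop_atTop
  have t1 : Tendsto (fun k : ℕ => L 1 k) atTop atTop := Real.tendsto_log_atTop.comp hcast
  have t2 : Tendsto (fun k : ℕ => L 2 k) atTop atTop := Real.tendsto_log_atTop.comp t1
  have t3 : Tendsto (fun k : ℕ => L 3 k) atTop atTop := Real.tendsto_log_atTop.comp t2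
  have t4 : Tendsto (fun k : ℕ => L 4 k) atTop atTop := Real.tendsto_log_atTop.comp t3
  have hgrow : ∀ᶠ x : ℕ in atTop, Λ * (L 1 x * L 2 x) ≤ x := by
    have h1 := Real.isLittleO_pow_log_id_atTop (n := 2)
    have h2 := (h1.bound (c := 1 / Λ) (by positivity))
    have h3 := hcast.eventually h2
    filter_upwards [h3, t1.eventually_ge_atTop 1, t2.eventually_ge_atTop 1] with x h4 h5 h6
    have e1 : L 1 x = Real.log x := rfl
    have e2 : L 2 x = Real.log (Real.log x) := rfl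
    rw [e1] at h5
    rw [e2] at h6
    rw [e1, e2]
    rw [Real.norm_of_nonneg (by positivity), id, Real.norm_of_nonneg (Nat.cast_nonneg x),
      div_mul_eq_mul_div, one_mul, le_div_iff₀ hΛ] at h4
    have h7 : Real.log (Real.log x) ≤ Real.log x := by
      have := Real.log_le_sub_one_of_pos (x := Real.log x) (by linarith)
      linarith
    have h8 : Real.log x * Real.log (Real.log x) ≤ Real.log x ^ 2 := by nlinarith
    calc Λ * (Real.log x * Real.log (Real.log x)) ≤ Λ * Real.log x ^ 2 :=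
          mul_le_mul_of_nonneg_left h8 hΛ.le
      _ = Real.log x ^ 2 * Λ := mul_comm _ _
      _ ≤ x := h4
  exact eventually_atTop.1 (hgrow.and ((t1.eventually_ge_atTop 1).and
    ((t2.eventually_ge_atTop 1).and ((t3.eventually_ge_atTop 0).and
      (t4.eventually_ge_atTop 0)))))

theorem part4 (Λ : ℝ) (hΛ : 0 < Λ) : ∃ c : ℝ, 0 < c ∧ ∃ x₀ : ℕ, ∀ x : ℕ, x₀ ≤ x →
    ∀ y : ℕ, (y : ℝ) ≤ Λ * (L 1 x * L 2 x) → c * T y * (x / L 1 x) ≤ exactlyOne x y := by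
  obtain ⟨C, hC, hav⟩ := avF
  obtain ⟨c, hc, x₀, h⟩ := part1 (C * (1 + Λ)) (by positivity)
  obtain ⟨x₁, hx₁⟩ := eventually_le Λ hΛ
  refine ⟨c, hc, max x₀ x₁, fun x hx y hy => ?_⟩
  obtain ⟨g1, g2, g3, -, -⟩ := hx₁ x ((le_max_right _ _).trans hx)
  have hyx : y ≤ x := by exact_mod_cast hy.trans g1
  have h1 := exactlyOne_ge x y (a := c * (x / L 1 x)) fun q₀ hq₀ ht => by
    refine h x ((le_max_left _ _).trans hx) (Iic y) q₀ (hq₀.trans hyx) ht ?_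
    have hy3 : 3 ≤ y := (three_le ht).trans hq₀
    refine (load_le hav hy3 hq₀).trans ?_
    rw [mul_assoc]
    refine mul_le_mul_of_nonneg_left ?_ hC.le
    have hyr : (3 : ℝ) ≤ y := by exact_mod_cast hy3
    have hlog1 : 1 ≤ Real.log y := by
      rw [Real.le_log_iff_exp_le (by linarith)]
      have := Real.exp_one_lt_d9
      linarith
    rw [div_le_iff₀ (by linarith)]
    by_cases hc2 : (y : ℝ) ≤ L 1 x
    · calc (y : ℝ) ≤ L 1 x := hc2
        _ ≤ (1 + Λ) * L 1 x := by nlinarith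
        _ ≤ (1 + Λ) * L 1 x * Real.log y := by
            refine le_mul_of_one_le_right (by positivity) hlog1
    · have h2 : L 2 x ≤ Real.log y := by
        have e2 : L 2 x = Real.log (L 1 x) := rfl
        rw [e2]
        exact Real.log_le_log (by linarith) (not_le.1 hc2).le
      calc (y : ℝ) ≤ Λ * (L 1 x * L 2 x) := hy
        _ ≤ (1 + Λ) * (L 1 x * L 2 x) := by
            refine mul_le_mul_of_nonneg_right (by linarith) (by positivity)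
        _ ≤ (1 + Λ) * (L 1 x * Real.log y) := by
            refine mul_le_mul_of_nonneg_left ?_ (by positivity)
            exact mul_le_mul_of_nonneg_left h2 (by positivity)
        _ = (1 + Λ) * L 1 x * Real.log y := by ring
  refine le_trans (le_of_eq ?_) h1
  ring

theorem T_zero {y : ℕ} (hy : y < 3) (x : ℕ) : witnessed x y = 0 := by
  classical
  unfold witnessed
  rw [card_eq_zero, filter_eq_empty_iff]
  rintro n - ⟨q, hq, hw⟩
  have := three_le hw.1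
  omega

/-- the trivial upper bound -/
theorem part5 : ∃ C : ℝ, 0 < C ∧ ∀ x y : ℕ, y ≤ x →
    (witnessed x y : ℝ) ≤ C * T y * (x / L 1 x) := by
  classical
  obtain ⟨_, C, _, hC, h⟩ := WC.result
  refine ⟨C, hC, fun x y hyx => ?_⟩
  by_cases hy : 3 ≤ y
  · obtain ⟨-, h2⟩ := h x y hy hyx
    have e1 : ((Icc 1 x).filter (WC.GoodUpTo y)).card = witnessed x y := by
      unfold witnessed
      congr 1
      ext n
      simp only [mem_filter]
      refine and_congr_right fun _ => ?_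
      constructor
      · rintro ⟨q, r, h3, h4, h5, h6⟩
        exact ⟨q, h3, h4, r, h5, h6⟩
      · rintro ⟨q, h3, h4, r, h5, h6⟩
        exact ⟨q, r, h3, h4, h5, h6⟩
    have e2 : ((Icc 1 y).filter WC.TwinIndex).card = T y := by
      unfold T
      congr!
    have e4 : L 1 x = Real.log x := rfl
    rw [e1, e2] at h2
    rw [e4]
    exact h2
  · rw [T_zero (not_le.1 hy), Nat.cast_zero]
    have h1 : 0 ≤ (x : ℝ) / L 1 x :=
      div_nonneg (Nat.cast_nonneg x) (Real.log_natCast_nonneg x)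
    exact mul_nonneg (mul_nonneg hC.le (Nat.cast_nonneg _)) h1

/-- The number of the `n ≤ x` for which a given `q₀` is a witness and no other element of `A` is. -/
theorem result (Λ δ : ℝ) (hΛ : 0 < Λ) (hδ : 0 < δ) : ∃ c C : ℝ, 0 < c ∧ 0 < C ∧
    (∃ x₀ : ℕ, ∀ x : ℕ, x₀ ≤ x →
      (∀ (A : Finset ℕ) (q₀ : ℕ), q₀ ≤ x → TwinIndex q₀ →
        (load A q₀ ≤ Λ * L 1 x → c * (x / L 1 x) ≤ only x A q₀) ∧
        (load A q₀ ≤ c * (L 1 x * L 2 x) → (x : ℝ) ^ (1 - δ) ≤ only x A q₀)) ∧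
      (∀ y : ℕ, (y : ℝ) ≤ Λ * (L 1 x * L 2 x) → c * T y * (x / L 1 x) ≤ exactlyOne x y ∧
        witnessed x y ≤ C * T y * (x / L 1 x))) ∧
    (∀ N : ℕ, ∃ x : ℕ, N ≤ x ∧ ∀ y q₀ : ℕ,
      (y : ℝ) ≤ c * (L 1 x * L 2 x ^ 3 * L 4 x / L 3 x ^ 2) → q₀ ≤ y → TwinIndex q₀ →
      (x : ℝ) ^ (1 - δ) ≤ only x (Iic y) q₀) := by
  obtain ⟨c₁, hc₁, x₁, h₁⟩ := part1 Λ hΛ
  obtain ⟨c₂, hc₂, x₂, h₂⟩ := part2 δ hδ
  obtain ⟨c₃, hc₃, h₃⟩ := part3 δ hδ
  obtain ⟨c₄, hc₄, x₄, h₄⟩ := part4 Λ hΛ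
  obtain ⟨C, hC, h₅⟩ := part5
  obtain ⟨x₆, h₆⟩ := eventually_le Λ hΛ
  obtain ⟨c, hc, hc1, hc2, hc3, hc4⟩ : ∃ c : ℝ, 0 < c ∧ c ≤ c₁ ∧ c ≤ c₂ ∧ c ≤ c₃ ∧ c ≤ c₄ :=
    ⟨min (min c₁ c₂) (min c₃ c₄), lt_min (lt_min hc₁ hc₂) (lt_min hc₃ hc₄),
      (min_le_left _ _).trans (min_le_left _ _), (min_le_left _ _).trans (min_le_right _ _),
      (min_le_right _ _).trans (min_le_left _ _), (min_le_right _ _).trans (min_le_right _ _)⟩
  refine ⟨c, C, hc, hC, ⟨x₁ + x₂ + x₄ + x₆, fun x hx => ⟨fun A q₀ hq ht => ⟨fun hl => ?_,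
    fun hl => ?_⟩, fun y hy => ⟨?_, ?_⟩⟩⟩, fun N => ?_⟩
  · obtain ⟨g0, g1, g2, -, -⟩ := h₆ x (by omega)
    exact (mul_le_mul_of_nonneg_right hc1 (div_nonneg (Nat.cast_nonneg x) (zero_le_one.trans g1))).trans
      (h₁ x (by omega) A q₀ hq ht hl)
  · obtain ⟨g0, g1, g2, -, -⟩ := h₆ x (by omega)
    refine h₂ x (by omega) A q₀ hq ht (hl.trans ?_)
    exact mul_le_mul_of_nonneg_right hc2 (mul_nonneg (zero_le_one.trans g1) (zero_le_one.trans g2))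
  · obtain ⟨g0, g1, g2, -, -⟩ := h₆ x (by omega)
    refine le_trans ?_ (h₄ x (by omega) y hy)
    exact mul_le_mul_of_nonneg_right (mul_le_mul_of_nonneg_right hc4 (Nat.cast_nonneg _))
      (div_nonneg (Nat.cast_nonneg x) (zero_le_one.trans g1))
  · obtain ⟨g0, g1, g2, -, -⟩ := h₆ x (by omega)
    exact h₅ x y (by exact_mod_cast hy.trans g0)
  · obtain ⟨x, hx, h⟩ := h₃ (N + x₆)
    obtain ⟨-, g1, g2, g3, g4⟩ := h₆ x (by omega)
    refine ⟨x, by omega, fun y q₀ hy hq ht => h y q₀ (hy.trans ?_) hq ht⟩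
    refine mul_le_mul_of_nonneg_right hc3 ?_
    exact div_nonneg (mul_nonneg (mul_nonneg (zero_le_one.trans g1)
      (pow_nonneg (zero_le_one.trans g2) 3)) g4) (sq_nonneg _)

end Pool.Agent.Results.MP_0ec542_nt.UniqueWitness
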